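import Pool.Agent.Q188.Bike.Track

/-!
# The tangent angle of a strictly convex closed track
-/

set_option autoImplicit false
open MeasureTheory Metric Set Filter Topology

namespace Q188.Bike

open Pool.Agent.Y508

/-- tangent angle and curvature -/
structure Ang (Γ : ℝ → E2) (L : ℝ) (α κ : ℝ → ℝ) : Prop where
  tan : ∀ t, deriv Γ t = ev (α t)
  der : ∀ t, HasDerivAt α (κ t) t
  cont : Continuous κ
  nonneg : ∀ t, 0 ≤ κ t
  mono : StrictMono α
  turn : ∀ t, α (t + L) = α t + 2 * Real.pi

variable {Γ : ℝ → E2} {L : ℝ}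

theorem exists_lift (h : ConvexTrack Γ L) : ∃ α κ : ℝ → ℝ, (∀ t, deriv Γ t = ev (α t)) ∧
    (∀ t, HasDerivAt α (κ t) t) ∧ Continuous κ := by
  set κ : ℝ → ℝ := fun t => crs (deriv Γ t) (deriv (deriv Γ) t) with hκ
  have hκc : Continuous κ := cont_crs h.cont1 h.cont2
  obtain ⟨α0, hα0⟩ := exists_ev _ (h.unit 0)
  set α : ℝ → ℝ := fun t => α0 + ∫ s in (0:ℝ)..t, κ s with hα
  have hαd : ∀ t, HasDerivAt α (κ t) t := fun t =>
    (hκc.integral_hasStrictDerivAt 0 t).hasDerivAt.const_add α0
  have hT0 : ∀ t, HasDerivAt (fun s => deriv Γ s 0) (deriv (deriv Γ) t 0) t := fun t =>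
    comp_deriv (h.diff1 t) 0
  have hT1 : ∀ t, HasDerivAt (fun s => deriv Γ s 1) (deriv (deriv Γ) t 1) t := fun t =>
    comp_deriv (h.diff1 t) 1
  have horth : ∀ t, deriv Γ t 0 * deriv (deriv Γ) t 0 + deriv Γ t 1 * deriv (deriv Γ) t 1 = 0 := by
    intro t
    have h1 : HasDerivAt (fun s => deriv Γ s 0 * deriv Γ s 0 + deriv Γ s 1 * deriv Γ s 1)
        ((deriv (deriv Γ) t 0 * deriv Γ t 0 + deriv Γ t 0 * deriv (deriv Γ) t 0) +
          (deriv (deriv Γ) t 1 * deriv Γ t 1 + deriv Γ t 1 * deriv (deriv Γ) t 1)) t :=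
      ((hT0 t).mul (hT0 t)).add ((hT1 t).mul (hT1 t))
    have h2 : (fun s => deriv Γ s 0 * deriv Γ s 0 + deriv Γ s 1 * deriv Γ s 1) =
        fun _ => (1:ℝ) := by
      funext s
      rw [← unit_coord (h.unit s)]
      ring
    rw [h2] at h1
    have := h1.unique (hasDerivAt_const t (1:ℝ))
    linarith
  have e0 : ∀ t, deriv (deriv Γ) t 0 = -κ t * deriv Γ t 1 := by
    intro t
    have h1 := unit_coord (h.unit t)
    have h2 := horth t
    simp only [hκ, crs]
    linear_combination (-deriv (deriv Γ) t 0) * h1 + (deriv Γ t 0) * h2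
  have e1 : ∀ t, deriv (deriv Γ) t 1 = κ t * deriv Γ t 0 := by
    intro t
    have h1 := unit_coord (h.unit t)
    have h2 := horth t
    simp only [hκ, crs]
    linear_combination (-deriv (deriv Γ) t 1) * h1 + (deriv Γ t 1) * h2
  set c : ℝ → ℝ := fun t => deriv Γ t 0 * Real.cos (α t) + deriv Γ t 1 * Real.sin (α t) with hc
  have hcd : ∀ t, HasDerivAt c 0 t := by
    intro t
    have h1 := ((hT0 t).mul (hαd t).cos).add ((hT1 t).mul (hαd t).sin)
    have e : (0:ℝ) = deriv (deriv Γ) t 0 * Real.cos (α t) +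
        deriv Γ t 0 * (-Real.sin (α t) * κ t) + (deriv (deriv Γ) t 1 * Real.sin (α t) +
          deriv Γ t 1 * (Real.cos (α t) * κ t)) := by
      rw [e0, e1]
      ring
    rw [e]
    exact h1
  have hconst : ∀ t, c t = 1 := by
    intro t
    have h1 := is_const_of_deriv_eq_zero (f := c) (fun t => (hcd t).differentiableAt)
      (fun t => (hcd t).deriv) t 0
    rw [h1]
    have h2 : α 0 = α0 := by simp [hα]
    simp only [hc, h2]
    have h3 : deriv Γ 0 0 = Real.cos α0 := by rw [hα0]; rfl
    have h4 : deriv Γ 0 1 = Real.sin α0 := by rw [hα0]; rfl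
    rw [h3, h4]
    have := Real.sin_sq_add_cos_sq α0
    nlinarith
  refine ⟨α, κ, fun t => ?_, hαd, hκc⟩
  have h1 := unit_coord (h.unit t)
  have h2 := hconst t
  have h3 := Real.sin_sq_add_cos_sq (α t)
  simp only [hc] at h2
  have h4 : (deriv Γ t 0 - Real.cos (α t)) ^ 2 + (deriv Γ t 1 - Real.sin (α t)) ^ 2 = 0 := by
    nlinarith
  have h5 : deriv Γ t 0 - Real.cos (α t) = 0 := by nlinarith [sq_nonneg (deriv Γ t 0 - Real.cos (α t)), sq_nonneg (deriv Γ t 1 - Real.sin (α t))]
  have h6 : deriv Γ t 1 - Real.sin (α t) = 0 := by nlinarith [sq_nonneg (deriv Γ t 0 - Real.cos (α t)), sq_nonneg (deriv Γ t 1 - Real.sin (α t))]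
  ext i
  fin_cases i
  · show deriv Γ t 0 = Real.cos (α t)
    linarith
  · show deriv Γ t 1 = Real.sin (α t)
    linarith

theorem crs_ev (a b : ℝ) : crs (ev a) (ev b) = Real.sin (b - a) := by
  simp only [crs, ev_zero, ev_one]
  rw [Real.sin_sub]
  ring

/-- height above the tangent at `t` -/
theorem height_deriv (h : ConvexTrack Γ L) {α : ℝ → ℝ} (hT : ∀ t, deriv Γ t = ev (α t)) (t u : ℝ) :
    HasDerivAt (fun s => crs (ev (α t)) (Γ s - Γ t)) (Real.sin (α u - α t)) u := by
  have h0 := comp_deriv (h.diff u) 0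
  have h1 := comp_deriv (h.diff u) 1
  have := ((h1.sub_const (Γ t 1)).const_mul (ev (α t) 0)).sub
    ((h0.sub_const (Γ t 0)).const_mul (ev (α t) 1))
  rw [hT u] at this
  have e : Real.sin (α u - α t) = ev (α t) 0 * ev (α u) 1 - ev (α t) 1 * ev (α u) 0 := by
    simp only [ev_zero, ev_one, Real.sin_sub]
    ring
  rw [e]
  exact this

theorem exists_ang (h : ConvexTrack Γ L) : ∃ α κ : ℝ → ℝ, Ang Γ L α κ := by
  obtain ⟨α, κ, hT, hd, hc⟩ := exists_lift h
  have hαc : Continuous α := continuous_iff_continuousAt.2 fun t => (hd t).continuousAt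
  have hL := h.pos
  have hpi := Real.pi_pos
  have hleft : ∀ t s, t < s → s < t + L → 0 < crs (ev (α t)) (Γ s - Γ t) := by
    intro t s h1 h2
    rw [← hT]
    exact left h (inj h h1 h2)
  have hh : ∀ t u, HasDerivAt (fun s => crs (ev (α t)) (Γ s - Γ t)) (Real.sin (α u - α t)) u :=
    height_deriv h hT
  have hzero : ∀ t, crs (ev (α t)) (Γ t - Γ t) = 0 := by
    intro t
    rw [sub_self]
    simp [crs]
  have hnn : ∀ t, 0 ≤ κ t := by
    intro t
    by_contra hneg
    push Not at hneg
    obtain ⟨δ1, hδ1, h1⟩ := Metric.eventually_nhds_iff.1 (hc.continuousAt.eventually_lt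
      continuousAt_const hneg)
    obtain ⟨δ2, hδ2, h2⟩ := Metric.eventually_nhds_iff.1
      ((hαc.continuousAt (x := t)).eventually (Metric.ball_mem_nhds (α t) hpi))
    set δ := min (min δ1 δ2) L / 2 with hδ
    have hδpos : 0 < δ := by positivity
    have hδ1' : δ < δ1 := by
      have : min (min δ1 δ2) L ≤ δ1 := (min_le_left _ _).trans (min_le_left _ _)
      linarith
    have hδ2' : δ < δ2 := by
      have : min (min δ1 δ2) L ≤ δ2 := (min_le_left _ _).trans (min_le_right _ _)
      linarith
    have hδL : δ < L := by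
      have : min (min δ1 δ2) L ≤ L := min_le_right _ _
      linarith
    have hanti : StrictAntiOn α (Icc t (t + δ)) := by
      apply strictAntiOn_of_deriv_neg (convex_Icc _ _) hαc.continuousOn
      intro s hs
      rw [interior_Icc] at hs
      rw [(hd s).deriv]
      apply h1
      rw [Real.dist_eq, abs_of_pos (by linarith [hs.1])]
      linarith [hs.2]
    have hanti2 : StrictAntiOn (fun s => crs (ev (α t)) (Γ s - Γ t)) (Icc t (t + δ)) := by
      apply strictAntiOn_of_deriv_neg (convex_Icc _ _)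
        (fun u _ => (hh t u).continuousAt.continuousWithinAt)
      intro s hs
      rw [interior_Icc] at hs
      rw [(hh t s).deriv]
      have h3 : α s < α t := hanti (left_mem_Icc.2 (by linarith)) ⟨hs.1.le, hs.2.le⟩ hs.1
      have h4 : dist (α s) (α t) < Real.pi := by
        apply h2
        rw [Real.dist_eq, abs_of_pos (by linarith [hs.1])]
        linarith [hs.2]
      rw [Real.dist_eq, abs_lt] at h4
      exact Real.sin_neg_of_neg_of_neg_pi_lt (by linarith) h4.1
    have h5 := hanti2 (left_mem_Icc.2 (by linarith)) (right_mem_Icc.2 (by linarith))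
      (by linarith : t < t + δ)
    simp only [hzero] at h5
    exact absurd h5 (not_lt.2 (hleft t (t + δ) (by linarith) (by linarith)).le)
  have hmono : Monotone α := by
    apply monotone_of_deriv_nonneg (fun t => (hd t).differentiableAt)
    intro t
    rw [(hd t).deriv]
    exact hnn t
  have hstrict : StrictMono α := by
    intro t s hts
    rcases lt_or_eq_of_le (hmono hts.le) with h1 | h1
    · exact h1
    exfalso
    set s' := min s (t + L / 2) with hs'
    have hs1 : t < s' := lt_min hts (by linarith)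
    have hs2 : s' ≤ s := min_le_left _ _
    have hs3 : s' < t + L := lt_of_le_of_lt (min_le_right _ _) (by linarith)
    have hanti2 : AntitoneOn (fun s => crs (ev (α t)) (Γ s - Γ t)) (Icc t s') := by
      apply antitoneOn_of_deriv_nonpos (convex_Icc _ _)
        (fun u _ => (hh t u).continuousAt.continuousWithinAt)
        (fun u _ => (hh t u).differentiableAt.differentiableWithinAt)
      intro u hu
      rw [interior_Icc] at hu
      rw [(hh t u).deriv]
      have h3 : α u = α t := le_antisymm ((hmono (hu.2.le.trans hs2)).trans h1.symm.le)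
        (hmono hu.1.le)
      rw [h3, sub_self, Real.sin_zero]
    have h5 := hanti2 (left_mem_Icc.2 hs1.le) (right_mem_Icc.2 hs1.le) hs1.le
    simp only [hzero] at h5
    exact absurd h5 (not_le.2 (hleft t s' hs1 hs3))
  refine ⟨α, κ, hT, hd, hc, hnn, hstrict, fun t => ?_⟩
  have hTper : ev (α (t + L)) = ev (α t) := by
    rw [← hT, ← hT]
    have e : (fun s => Γ (s + L)) = Γ := funext h.per
    have := deriv_comp_add_const Γ L t
    rw [e] at this
    exact this.symm
  have hcos : Real.cos (α (t + L)) = Real.cos (α t) := congrFun (congrArg WithLp.ofLp hTper) 0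
  have hsin : Real.sin (α (t + L)) = Real.sin (α t) := congrFun (congrArg WithLp.ofLp hTper) 1
  obtain ⟨k, hk⟩ := Real.Angle.angle_eq_iff_two_pi_dvd_sub.1 (Real.Angle.cos_sin_inj hcos hsin)
  have hgt : α t < α (t + L) := hstrict (by linarith)
  have hk0 : (0:ℝ) < k := by
    have : 0 < 2 * Real.pi * k := by rw [← hk]; linarith
    exact (mul_pos_iff_of_pos_left (by positivity)).1 this
  have hk0' : 0 < k := by exact_mod_cast hk0
  rcases lt_or_ge k 2 with hk2 | hk2
  · have : k = 1 := by omega
    rw [this] at hk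
    push_cast at hk
    linarith
  · exfalso
    have hk2' : (2:ℝ) ≤ k := by exact_mod_cast hk2
    have hbig : α t + 2 * Real.pi < α (t + L) := by nlinarith
    obtain ⟨s, hs, hse⟩ := intermediate_value_Icc (by linarith : t ≤ t + L) hαc.continuousOn
      ⟨by linarith, hbig.le⟩
    have hs1 : t < s := by
      rcases lt_or_eq_of_le hs.1 with h1 | h1
      · exact h1
      · rw [← h1] at hse; linarith
    have hs2 : s < t + L := by
      rcases lt_or_eq_of_le hs.2 with h1 | h1
      · exact h1
      · rw [h1] at hse; linarith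
    have hev : ev (α s) = ev (α t) := by
      rw [hse]
      unfold ev
      rw [Real.cos_add_two_pi, Real.sin_add_two_pi]
    have h1 := hleft t s hs1 hs2
    have h2 := left h (inj h hs1 hs2).symm
    rw [hT, hev] at h2
    have h3 : crs (ev (α t)) (Γ s - Γ t) + crs (ev (α t)) (Γ t - Γ s) = 0 := by
      simp only [crs, PiLp.sub_apply]
      ring
    linarith

end Q188.Bike
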