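import Pool.Agent.Q188.Bike.Angle

/-!
# Barriers for the bicycle equation
-/

set_option autoImplicit false
open MeasureTheory Metric Set Filter Topology

namespace Q188.Bike

open Pool.Agent.Y508

theorem barrier {u u' : ℝ → ℝ} {C : ℝ} (hu : ∀ t, HasDerivAt u (u' t) t)
    (hb : ∀ t, 0 < u t → u' t ≤ C * u t) {t0 t1 : ℝ} (h01 : t0 ≤ t1) (h0 : u t0 ≤ 0) :
    u t1 ≤ 0 := by
  by_contra hcon
  push Not at hcon
  have hc : Continuous u := continuous_iff_continuousAt.2 fun t => (hu t).continuousAt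
  set S : Set ℝ := Icc t0 t1 ∩ {t | u t ≤ 0} with hS
  have hScpt : IsCompact S := isCompact_Icc.inter_right (isClosed_le hc continuous_const)
  have hSne : S.Nonempty := ⟨t0, left_mem_Icc.2 h01, h0⟩
  obtain ⟨s, hs, hmax⟩ := hScpt.exists_isGreatest hSne
  have hs1 : u s ≤ 0 := hs.2
  have hst : s < t1 := by
    rcases lt_or_eq_of_le hs.1.2 with h | h
    · exact h
    · rw [h] at hs1; linarith
  have hpos : ∀ t, s < t → t ≤ t1 → 0 < u t := by
    intro t h1 h2
    by_contra hn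
    push Not at hn
    have := hmax ⟨⟨hs.1.1.trans h1.le, h2⟩, hn⟩
    linarith
  set w : ℝ → ℝ := fun t => u t * Real.exp (-C * t) with hw
  have hwd : ∀ t, HasDerivAt w (u' t * Real.exp (-C * t) + u t * (Real.exp (-C * t) * -C)) t := by
    intro t
    have h1 : HasDerivAt (fun t : ℝ => Real.exp (-C * t)) (Real.exp (-C * t) * -C) t := by
      have := ((hasDerivAt_id t).const_mul (-C)).exp
      simpa using this
    exact (hu t).mul h1
  have hanti : AntitoneOn w (Icc s t1) := by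
    apply antitoneOn_of_deriv_nonpos (convex_Icc _ _)
      (fun t _ => (hwd t).continuousAt.continuousWithinAt)
      (fun t _ => (hwd t).differentiableAt.differentiableWithinAt)
    intro t ht
    rw [interior_Icc] at ht
    rw [(hwd t).deriv]
    have h1 := hb t (hpos t ht.1 ht.2.le)
    have h2 := Real.exp_pos (-C * t)
    have e : u' t * Real.exp (-C * t) + u t * (Real.exp (-C * t) * -C) =
        (u' t - C * u t) * Real.exp (-C * t) := by ring
    rw [e]
    exact mul_nonpos_of_nonpos_of_nonneg (by linarith) h2.le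
  have h3 := hanti (left_mem_Icc.2 hst.le) (right_mem_Icc.2 hst.le) hst.le
  simp only [hw] at h3
  have h4 : 0 < u t1 * Real.exp (-C * t1) := mul_pos hcon (Real.exp_pos _)
  have h5 : u s * Real.exp (-C * s) ≤ 0 :=
    mul_nonpos_of_nonpos_of_nonneg hs1 (Real.exp_pos _).le
  linarith

theorem barrier_back {u u' : ℝ → ℝ} {C : ℝ} (hu : ∀ t, HasDerivAt u (u' t) t)
    (hb : ∀ t, u t < 0 → u' t ≤ C * -u t) {t0 t1 : ℝ} (h01 : t0 ≤ t1) (h1 : 0 ≤ u t1) :
    0 ≤ u t0 := by
  have hv : ∀ t, HasDerivAt (fun s => -u (-s)) (u' (-t)) t := by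
    intro t
    have h2 : HasDerivAt (fun s => u (-s)) (u' (-t) * -1) t :=
      (hu (-t)).comp t (hasDerivAt_neg t)
    have h3 := h2.neg
    rw [mul_neg, mul_one, neg_neg] at h3
    exact h3
  have := barrier (u := fun s => -u (-s)) (u' := fun t => u' (-t)) (C := C) hv (by
    intro t ht
    have h4 := hb (-t) (by linarith)
    linarith) (t0 := -t1) (t1 := -t0) (by linarith) (by rw [neg_neg]; linarith)
  rw [neg_neg] at this
  linarith

theorem ode_unique {d d' : ℝ → ℝ} {C : ℝ} (hC : 0 ≤ C) (hd : ∀ t, HasDerivAt d (d' t) t)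
    (hb : ∀ t, |d' t| ≤ C * |d t|) {t0 : ℝ} (h0 : d t0 = 0) (t : ℝ) : d t = 0 := by
  have hn : ∀ t, HasDerivAt (fun s => -d s) (-d' t) t := fun t => (hd t).neg
  have p1 : ∀ t, 0 < d t → d' t ≤ C * d t := by
    intro t ht
    have := hb t
    rw [abs_of_pos ht] at this
    exact (le_abs_self _).trans this
  have p2 : ∀ t, 0 < -d t → -d' t ≤ C * -d t := by
    intro t ht
    have := hb t
    rw [abs_of_neg (by linarith : d t < 0)] at this
    exact (neg_le_abs _).trans this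
  have p3 : ∀ t, d t < 0 → d' t ≤ C * -d t := by
    intro t ht
    have := hb t
    rw [abs_of_neg ht] at this
    exact (le_abs_self _).trans this
  have p4 : ∀ t, -d t < 0 → -d' t ≤ C * - -d t := by
    intro t ht
    have := hb t
    rw [abs_of_pos (by linarith : 0 < d t)] at this
    rw [neg_neg]
    exact (neg_le_abs _).trans this
  rcases le_total t0 t with h | h
  · have h1 := barrier hd p1 h h0.le
    have h2 := barrier hn p2 h (by simp only [h0, neg_zero, le_refl])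
    linarith
  · have h1 := barrier_back hd p3 h h0.ge
    have h2 := barrier_back hn p4 h (by simp only [h0, neg_zero, le_refl])
    linarith

theorem const_deriv {f f' : ℝ → ℝ} (hf : ∀ t, HasDerivAt f (f' t) t) {a b : ℝ}
    (hc : ∀ t ∈ Icc a b, f t = f a) {t : ℝ} (ht : t ∈ Ioo a b) : f' t = 0 := by
  have h1 : f =ᶠ[𝓝 t] fun _ => f a := by
    filter_upwards [Ioo_mem_nhds ht.1 ht.2] with s hs
    exact hc s ⟨hs.1.le, hs.2.le⟩
  exact (hf t).unique ((hasDerivAt_const t (f a)).congr_of_eventuallyEq h1)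

theorem mono_const {f : ℝ → ℝ} {a b : ℝ} (hf : MonotoneOn f (Icc a b)) (h : f a = f b) :
    ∀ t ∈ Icc a b, f t = f a := by
  intro t ht
  have hab : a ≤ b := ht.1.trans ht.2
  apply le_antisymm
  · rw [h]
    exact hf ht (right_mem_Icc.2 hab) ht.2
  · exact hf (left_mem_Icc.2 hab) ht ht.1

/-- a solution of the bicycle equation along the tangent angle `α` with curvature `κ` -/
structure Sol (ℓ : ℝ) (α κ θ : ℝ → ℝ) : Prop where
  pos : 0 < ℓ
  dα : ∀ t, HasDerivAt α (κ t) t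
  κnn : ∀ t, 0 ≤ κ t
  dθ : ∀ t, HasDerivAt θ (Real.sin (θ t - α t) / ℓ) t

variable {ℓ : ℝ} {α κ θ : ℝ → ℝ}

theorem Sol.dψ (h : Sol ℓ α κ θ) (c t : ℝ) :
    HasDerivAt (fun s => θ s - α s - c) (Real.sin (θ t - α t) / ℓ - κ t) t :=
  ((h.dθ t).sub (h.dα t)).sub_const c

theorem Sol.bound (h : Sol ℓ α κ θ) (k : ℤ) (t : ℝ) :
    Real.sin (θ t - α t) / ℓ - κ t ≤ ℓ⁻¹ * |θ t - α t - k * Real.pi| := by
  have h1 : |Real.sin (θ t - α t)| ≤ |θ t - α t - k * Real.pi| := by
    have e : |Real.sin (θ t - α t)| = |Real.sin (θ t - α t - k * Real.pi)| := by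
      rw [Real.sin_sub_int_mul_pi, abs_mul, abs_zpow, abs_neg, abs_one, one_zpow, one_mul]
    rw [e]
    exact Real.abs_sin_le_abs
  have h2 : Real.sin (θ t - α t) / ℓ ≤ ℓ⁻¹ * |Real.sin (θ t - α t)| := by
    rw [div_eq_inv_mul]
    exact mul_le_mul_of_nonneg_left (le_abs_self _) (inv_nonneg.2 h.pos.le)
  have h3 := mul_le_mul_of_nonneg_left h1 (inv_nonneg.2 h.pos.le)
  linarith [h.κnn t]

theorem Sol.fwd (h : Sol ℓ α κ θ) (k : ℤ) {t0 t1 : ℝ} (h01 : t0 ≤ t1)
    (h0 : θ t0 - α t0 ≤ k * Real.pi) : θ t1 - α t1 ≤ k * Real.pi := by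
  have := barrier (h.dψ (k * Real.pi)) (C := ℓ⁻¹) (by
    intro t ht
    have := h.bound k t
    rwa [abs_of_pos ht] at this) h01 (by linarith)
  linarith

theorem Sol.bwd (h : Sol ℓ α κ θ) (k : ℤ) {t0 t1 : ℝ} (h01 : t0 ≤ t1)
    (h1 : k * Real.pi ≤ θ t1 - α t1) : k * Real.pi ≤ θ t0 - α t0 := by
  have := barrier_back (h.dψ (k * Real.pi)) (C := ℓ⁻¹) (by
    intro t ht
    have := h.bound k t
    rwa [abs_of_neg ht] at this) h01 (by linarith)
  linarith

theorem Sol.shift (h : Sol ℓ α κ θ) (j : ℤ) : Sol ℓ α κ (fun t => θ t - j * (2 * Real.pi)) := by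
  refine ⟨h.pos, h.dα, h.κnn, fun t => ?_⟩
  have e : Real.sin (θ t - j * (2 * Real.pi) - α t) = Real.sin (θ t - α t) := by
    rw [show θ t - j * (2 * Real.pi) - α t = θ t - α t - j * (2 * Real.pi) by ring,
      Real.sin_sub_int_mul_two_pi]
  rw [e]
  exact (h.dθ t).sub_const _

end Q188.Bike
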