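import Pool.Agent.Q188.Bike.Main
import Pool.Agent.H839R2.Ode.Flow

/-!
# The linear lift of the bicycle equation
-/

set_option autoImplicit false
open MeasureTheory Metric Set Filter Topology
open scoped NNReal Matrix

namespace Q188.Bike

open Pool.Agent.Y508

/-- solutions in the convention `Γ - ℓ (cos θ, sin θ)` -/
def SolA (ℓ : ℝ) (α θ : ℝ → ℝ) : Prop := ∀ t, HasDerivAt θ (Real.sin (α t - θ t) / ℓ) t

variable {Γ : ℝ → E2} {L ℓ : ℝ} {α κ θ : ℝ → ℝ}

theorem kappa_bound (hA : Ang Γ L α κ) (hL : 0 < L) : ∃ B : ℝ, 0 < B ∧ ∀ t, |κ t| ≤ B := by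
  have hper : Function.Periodic κ L := by
    intro t
    have h1 := (hA.der (t + L)).comp_add_const t L
    have e : (fun s => α (s + L)) = fun s => α s + 2 * Real.pi := funext hA.turn
    rw [e] at h1
    exact h1.unique ((hA.der t).add_const _)
  obtain ⟨B, hB⟩ := (isCompact_Icc (a := (0:ℝ)) (b := L)).exists_bound_of_continuousOn
    hA.cont.continuousOn
  refine ⟨max B 1, lt_of_lt_of_le one_pos (le_max_right _ _), fun t => ?_⟩
  obtain ⟨s, hs, he⟩ := hper.exists_mem_Ico₀ hL t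
  rw [he]
  exact (hB s ⟨hs.1, hs.2.le⟩).trans (le_max_left _ _)

theorem exists_solA (hA : Ang Γ L α κ) (hL : 0 < L) (hℓ : 0 < ℓ) (x : ℝ) :
    ∃ θ : ℝ → ℝ, SolA ℓ α θ ∧ θ 0 = x := by
  obtain ⟨B, hB0, hB⟩ := kappa_bound hA hL
  have hαl : ∀ s t, |α s - α t| ≤ B * |s - t| := by
    intro s t
    have := convex_univ.norm_image_sub_le_of_norm_hasDerivWithin_le (f := α) (f' := κ) (C := B)
      (fun u _ => (hA.der u).hasDerivWithinAt) (fun u _ => hB u) (mem_univ t) (mem_univ s)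
    exact this
  set W : ℝ × ℝ → ℝ × ℝ := fun p => (1, Real.sin (α p.1 - p.2) / ℓ) with hW
  have hLip : LipschitzWith (Real.toNNReal ((B + 1) / ℓ)) W := by
    apply LipschitzWith.of_dist_le_mul
    intro p q
    rw [Real.coe_toNNReal _ (by positivity), Prod.dist_eq]
    simp only [hW, dist_self]
    apply max_le (by positivity)
    rw [Real.dist_eq, ← sub_div, abs_div, abs_of_pos hℓ]
    have h1 := Real.abs_sin_sub_sin_le (α p.1 - p.2) (α q.1 - q.2)
    have h2 : |α p.1 - p.2 - (α q.1 - q.2)| ≤ (B + 1) * dist p q := by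
      have e : α p.1 - p.2 - (α q.1 - q.2) = (α p.1 - α q.1) - (p.2 - q.2) := by ring
      rw [e]
      refine (abs_sub _ _).trans ?_
      have h3 := hαl p.1 q.1
      have h4 : |p.1 - q.1| ≤ dist p q := by rw [Prod.dist_eq, ← Real.dist_eq]; exact le_max_left _ _
      have h5 : |p.2 - q.2| ≤ dist p q := by rw [Prod.dist_eq, ← Real.dist_eq]; exact le_max_right _ _
      have h6 := mul_le_mul_of_nonneg_left h4 hB0.le
      linarith
    calc |Real.sin (α p.1 - p.2) - Real.sin (α q.1 - q.2)| / ℓ ≤ ((B + 1) * dist p q) / ℓ := by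
          gcongr
          exact h1.trans h2
      _ = (B + 1) / ℓ * dist p q := by ring
  have hbd : ∀ p, ‖W p‖ ≤ (Real.toNNReal (max 1 (1 / ℓ)) : ℝ≥0) := by
    intro p
    rw [Real.coe_toNNReal _ (by positivity), Prod.norm_def]
    simp only [hW]
    apply max_le
    · rw [norm_one]; exact le_max_left _ _
    · rw [Real.norm_eq_abs, abs_div, abs_of_pos hℓ]
      refine le_trans ?_ (le_max_right _ _)
      gcongr
      exact Real.abs_sin_le_one _
  obtain ⟨γ, h0, h1⟩ := Pool.Agent.H839R2.Ode.exists_global_solution W _ _ hLip hbd (0, x)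
  have hfst : ∀ t, HasDerivAt (fun s => (γ s).1) 1 t := fun t =>
    (ContinuousLinearMap.fst ℝ ℝ ℝ).hasFDerivAt.comp_hasDerivAt t (h1 t)
  have hsnd : ∀ t, HasDerivAt (fun s => (γ s).2) (Real.sin (α (γ t).1 - (γ t).2) / ℓ) t := fun t =>
    (ContinuousLinearMap.snd ℝ ℝ ℝ).hasFDerivAt.comp_hasDerivAt t (h1 t)
  have htime : ∀ t, (γ t).1 = t := by
    intro t
    have hd : ∀ t, HasDerivAt (fun s => (γ s).1 - s) (1 - 1) t := fun t =>
      (hfst t).sub (hasDerivAt_id t)
    have h2 := is_const_of_deriv_eq_zero (f := fun s => (γ s).1 - s)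
      (fun t => (hd t).differentiableAt) (fun t => by rw [(hd t).deriv, sub_self]) t 0
    simp only [h0, sub_self] at h2
    linarith
  refine ⟨fun t => (γ t).2, fun t => ?_, by simp only [h0]⟩
  have := hsnd t
  rw [htime] at this
  exact this

theorem SolA.cont (h : SolA ℓ α θ) : Continuous θ :=
  continuous_iff_continuousAt.2 fun t => (h t).continuousAt

/-- the radial factor -/
noncomputable def rad (ℓ : ℝ) (α θ : ℝ → ℝ) (t : ℝ) : ℝ :=
  Real.exp (∫ s in (0:ℝ)..t, Real.cos (α s - θ s) / (2 * ℓ))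

theorem rad_pos (t : ℝ) : 0 < rad ℓ α θ t := Real.exp_pos _

theorem rad_zero : rad ℓ α θ 0 = 1 := by simp [rad]

theorem rad_deriv (hα : Continuous α) (hθ : Continuous θ) (t : ℝ) :
    HasDerivAt (rad ℓ α θ) (rad ℓ α θ t * (Real.cos (α t - θ t) / (2 * ℓ))) t := by
  have hc : Continuous fun s => Real.cos (α s - θ s) / (2 * ℓ) := by fun_prop
  exact ((hc.integral_hasStrictDerivAt 0 t).hasDerivAt).exp

/-- the Wronskian is constant -/
theorem wronskian (hα : Continuous α) {θ₁ θ₂ : ℝ → ℝ} (h1 : SolA ℓ α θ₁) (h2 : SolA ℓ α θ₂)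
    (t : ℝ) : rad ℓ α θ₁ t * rad ℓ α θ₂ t * Real.sin ((θ₂ t - θ₁ t) / 2) =
      Real.sin ((θ₂ 0 - θ₁ 0) / 2) := by
  have hd : ∀ t, HasDerivAt (fun t => rad ℓ α θ₁ t * rad ℓ α θ₂ t * Real.sin ((θ₂ t - θ₁ t) / 2))
      0 t := by
    intro t
    have k1 := rad_deriv (ℓ := ℓ) hα h1.cont t
    have k2 := rad_deriv (ℓ := ℓ) hα h2.cont t
    have k3 := (((h2 t).sub (h1 t)).div_const 2).sin
    have k4 := (k1.mul k2).mul k3
    set A := rad ℓ α θ₁ t with hA
    set B := rad ℓ α θ₂ t with hB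
    have key : ∀ a b : ℝ, (A * (Real.cos (a + b) / (2 * ℓ)) * B +
        A * (B * (Real.cos (a - b) / (2 * ℓ)))) * Real.sin b +
        A * B * (Real.cos b * ((Real.sin (a - b) / ℓ - Real.sin (a + b) / ℓ) / 2)) = 0 := by
      intro a b
      rw [Real.cos_add, Real.cos_sub, Real.sin_add, Real.sin_sub]
      ring
    have e1 : Real.cos (α t - θ₁ t) = Real.cos ((α t - (θ₁ t + θ₂ t) / 2) + (θ₂ t - θ₁ t) / 2) := by
      congr 1; ring
    have e2 : Real.cos (α t - θ₂ t) = Real.cos ((α t - (θ₁ t + θ₂ t) / 2) - (θ₂ t - θ₁ t) / 2) := by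
      congr 1; ring
    have e3 : Real.sin (α t - θ₁ t) = Real.sin ((α t - (θ₁ t + θ₂ t) / 2) + (θ₂ t - θ₁ t) / 2) := by
      congr 1; ring
    have e4 : Real.sin (α t - θ₂ t) = Real.sin ((α t - (θ₁ t + θ₂ t) / 2) - (θ₂ t - θ₁ t) / 2) := by
      congr 1; ring
    have e : (0:ℝ) = (A * (Real.cos (α t - θ₁ t) / (2 * ℓ)) * B +
        A * (B * (Real.cos (α t - θ₂ t) / (2 * ℓ)))) * Real.sin ((θ₂ t - θ₁ t) / 2) +
        A * B * (Real.cos ((θ₂ t - θ₁ t) / 2) *
          ((Real.sin (α t - θ₂ t) / ℓ - Real.sin (α t - θ₁ t) / ℓ) / 2)) := by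
      rw [e1, e2, e3, e4]
      exact (key _ _).symm
    rw [e]
    exact k4
  have h3 := is_const_of_deriv_eq_zero (fun t => (hd t).differentiableAt)
    (fun t => (hd t).deriv) t 0
  simp only [rad_zero, one_mul] at h3
  exact h3

/-- half angle vector -/
noncomputable def hv (x : ℝ) : Fin 2 → ℝ := ![Real.cos (x / 2), Real.sin (x / 2)]

/-- the lift of the monodromy -/
theorem exists_lift_matrix (hA : Ang Γ L α κ) (hL : 0 < L) (hℓ : 0 < ℓ) :
    ∃ M : Matrix (Fin 2) (Fin 2) ℝ, M.det = 1 ∧ ∀ θ, SolA ℓ α θ →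
      M *ᵥ hv (θ 0) = rad ℓ α θ L • hv (θ L) := by
  have hα : Continuous α := continuous_iff_continuousAt.2 fun t => (hA.der t).continuousAt
  obtain ⟨p, hp, hp0⟩ := exists_solA hA hL hℓ 0
  obtain ⟨q, hq, hq0⟩ := exists_solA hA hL hℓ Real.pi
  set P := rad ℓ α p L with hP
  set Q := rad ℓ α q L with hQ
  have w1 := wronskian hα hp hq L
  rw [hp0, hq0, sub_zero, Real.sin_pi_div_two, ← hP, ← hQ] at w1
  refine ⟨!![P * Real.cos (p L / 2), Q * Real.cos (q L / 2);
    P * Real.sin (p L / 2), Q * Real.sin (q L / 2)], ?_, fun θ hθ => ?_⟩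
  · rw [Matrix.det_fin_two_of, ← w1, sub_div, Real.sin_sub]
    ring
  · have w2 := wronskian hα hp hθ L
    have w3 := wronskian hα hθ hq L
    rw [hp0, sub_zero, ← hP] at w2
    have e3 : Real.sin ((Real.pi - θ 0) / 2) = Real.cos (θ 0 / 2) := by
      rw [sub_div, Real.sin_pi_div_two_sub]
    rw [hq0, e3, ← hQ] at w3
    set R := rad ℓ α θ L with hR
    have g1 : (P * Q * Real.sin ((q L - p L) / 2)) * (R * Real.cos (θ L / 2)) =
        (R * Q * Real.sin ((q L - θ L) / 2)) * (P * Real.cos (p L / 2)) +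
        (P * R * Real.sin ((θ L - p L) / 2)) * (Q * Real.cos (q L / 2)) := by
      rw [sub_div, sub_div, sub_div, Real.sin_sub, Real.sin_sub, Real.sin_sub]
      ring
    have g2 : (P * Q * Real.sin ((q L - p L) / 2)) * (R * Real.sin (θ L / 2)) =
        (R * Q * Real.sin ((q L - θ L) / 2)) * (P * Real.sin (p L / 2)) +
        (P * R * Real.sin ((θ L - p L) / 2)) * (Q * Real.sin (q L / 2)) := by
      rw [sub_div, sub_div, sub_div, Real.sin_sub, Real.sin_sub, Real.sin_sub]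
      ring
    rw [w1, w2, w3, one_mul] at g1 g2
    ext i
    fin_cases i
    · simp only [hv, Matrix.mulVec, Matrix.of_apply, Matrix.cons_dotProduct,
        Fin.zero_eta, Matrix.cons_val_zero, Pi.smul_apply, smul_eq_mul]
      simp [Matrix.vecHead, Matrix.vecTail, dotProduct]
      linarith
    · simp only [hv, Matrix.mulVec, Matrix.of_apply, Matrix.cons_dotProduct,
        Fin.mk_one, Matrix.cons_val_one, Pi.smul_apply, smul_eq_mul]
      simp [Matrix.vecHead, Matrix.vecTail, dotProduct]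
      linarith

end Q188.Bike
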