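import Pool.Agent.Q188.Bike.RotZero

/-!
# Bicycles along strictly convex closed front tracks
-/

set_option autoImplicit false
open MeasureTheory Metric Set Filter Topology

namespace Q188.Bike

open Pool.Agent.Y508

/-- A bicycle of length `ℓ` whose front end follows `Γ = (X, Y)`: the rear end is at
`Γ t + ℓ (cos (θ t), sin (θ t))`, and `ℓ θ' = X' sin θ - Y' cos θ`. -/
def Rides (Γ : ℝ → E2) (ℓ : ℝ) (θ : ℝ → ℝ) : Prop :=
  ∀ t, HasDerivAt θ ((deriv Γ t 0 * Real.sin (θ t) - deriv Γ t 1 * Real.cos (θ t)) / ℓ) t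

variable {Γ : ℝ → E2} {L ℓ : ℝ}

theorem sol_of_rides {α κ θ : ℝ → ℝ} (hA : Ang Γ L α κ) (hℓ : 0 < ℓ) (hθ : Rides Γ ℓ θ) :
    Sol ℓ α κ θ := by
  refine ⟨hℓ, hA.der, hA.nonneg, fun t => ?_⟩
  have h1 := hθ t
  rw [hA.tan t, ev_zero, ev_one] at h1
  have e : Real.sin (θ t - α t) = Real.cos (α t) * Real.sin (θ t) -
      Real.sin (α t) * Real.cos (θ t) := by
    rw [Real.sin_sub]
    ring
  rw [e]
  exact h1

theorem exists_Y (h : ConvexTrack Γ L) {α κ : ℝ → ℝ} (hA : Ang Γ L α κ) (b : ℝ) :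
    ∃ Y : ℝ → ℝ, (∀ t, HasDerivAt Y (Real.sin (α t - b)) t) ∧ ∀ t, Y (t + L) = Y t := by
  refine ⟨fun t => crs (ev b) (Γ t), fun t => ?_, fun t => by simp only [h.per]⟩
  have h0 := comp_deriv (h.diff t) 0
  have h1 := comp_deriv (h.diff t) 1
  have h2 := (h1.const_mul (ev b 0)).sub (h0.const_mul (ev b 1))
  rw [hA.tan t] at h2
  have e : Real.sin (α t - b) = ev b 0 * ev (α t) 1 - ev b 1 * ev (α t) 0 := by
    simp only [ev_zero, ev_one, Real.sin_sub]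
    ring
  rw [e]
  exact h2

theorem rotation_one (h : ConvexTrack Γ L) (hℓ : 0 < ℓ) {θ : ℝ → ℝ} (hθ : Rides Γ ℓ θ) {ρ : ℤ}
    (hρ : θ L - θ 0 = 2 * Real.pi * ρ) : ρ = 1 := by
  obtain ⟨α, κ, hA⟩ := exists_ang h
  exact (sol_of_rides hA hℓ hθ).eq_one h.pos hA.mono hA.turn (exists_Y h hA) (by linarith)

end Q188.Bike
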