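import Pool.Agent.Q188.Bike.Lin

/-!
# Hyperbolic and elliptic monodromy
-/

set_option autoImplicit false
open MeasureTheory Metric Set Filter Topology
open scoped NNReal Matrix

namespace Q188.Bike

open Pool.Agent.Y508

/-! ### matrices -/

/-- determinant of two vectors -/
def dv (v w : Fin 2 → ℝ) : ℝ := v 0 * w 1 - v 1 * w 0

theorem dv_hv (x y : ℝ) : dv (hv x) (hv y) = Real.sin ((y - x) / 2) := by
  simp only [dv, hv, Matrix.cons_val_zero, Matrix.cons_val_one]
  rw [sub_div, Real.sin_sub]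
  ring

theorem mv0 (M : Matrix (Fin 2) (Fin 2) ℝ) (v : Fin 2 → ℝ) :
    (M *ᵥ v) 0 = M 0 0 * v 0 + M 0 1 * v 1 := by
  simp [Matrix.mulVec, dotProduct, Fin.sum_univ_two]

theorem mv1 (M : Matrix (Fin 2) (Fin 2) ℝ) (v : Fin 2 → ℝ) :
    (M *ᵥ v) 1 = M 1 0 * v 0 + M 1 1 * v 1 := by
  simp [Matrix.mulVec, dotProduct, Fin.sum_univ_two]

theorem trace_gt {M : Matrix (Fin 2) (Fin 2) ℝ} (hM : M.det = 1) {v w z : Fin 2 → ℝ} {a b : ℝ}
    (hv : M *ᵥ v = a • v) (hw : M *ᵥ w = b • w) (hvw : dv v w ≠ 0) (hz : dv z (M *ᵥ z) ≠ 0) :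
    2 < |M.trace| := by
  rw [Matrix.det_fin_two] at hM
  have v0 := congrFun hv 0
  have v1 := congrFun hv 1
  have w0 := congrFun hw 0
  have w1 := congrFun hw 1
  rw [mv0] at v0 w0
  rw [mv1] at v1 w1
  simp only [Pi.smul_apply, smul_eq_mul] at v0 v1 w0 w1
  have hab : a * b = 1 := by
    have e : a * b * dv v w = 1 * dv v w := by
      rw [← hM]
      unfold dv
      calc a * b * (v 0 * w 1 - v 1 * w 0) = (a * v 0) * (b * w 1) - (a * v 1) * (b * w 0) := by ring
        _ = _ := by rw [← v0, ← v1, ← w0, ← w1]; ring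
    exact mul_right_cancel₀ hvw e
  have htr : M.trace = a + b := by
    rw [Matrix.trace_fin_two]
    have e : (M 0 0 + M 1 1) * dv v w = (a + b) * dv v w := by
      unfold dv
      calc (M 0 0 + M 1 1) * (v 0 * w 1 - v 1 * w 0) =
          ((M 0 0 * v 0 + M 0 1 * v 1) * w 1 - (M 1 0 * v 0 + M 1 1 * v 1) * w 0) +
          (v 0 * (M 1 0 * w 0 + M 1 1 * w 1) - v 1 * (M 0 0 * w 0 + M 0 1 * w 1)) := by ring
        _ = _ := by rw [v0, v1, w0, w1]; ring
    exact mul_right_cancel₀ hvw e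
  have hne : a ≠ b := by
    intro he
    subst he
    have h01 : M 0 1 = 0 ∧ M 0 0 = a := by
      constructor
      · have e : M 0 1 * dv v w = 0 * dv v w := by
          unfold dv
          linear_combination w 0 * v0 * (-1) + v 0 * w0
        exact mul_right_cancel₀ hvw e
      · have e : M 0 0 * dv v w = a * dv v w := by
          unfold dv
          linear_combination w 1 * v0 - v 1 * w0
        exact mul_right_cancel₀ hvw e
    have h10 : M 1 0 = 0 ∧ M 1 1 = a := by
      constructor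
      · have e : M 1 0 * dv v w = 0 * dv v w := by
          unfold dv
          linear_combination w 1 * v1 - v 1 * w1
        exact mul_right_cancel₀ hvw e
      · have e : M 1 1 * dv v w = a * dv v w := by
          unfold dv
          linear_combination w 0 * v1 * (-1) + v 0 * w1
        exact mul_right_cancel₀ hvw e
    apply hz
    unfold dv
    rw [mv0, mv1, h01.1, h01.2, h10.1, h10.2]
    ring
  rw [htr]
  have h4 : (2:ℝ) ^ 2 < |a + b| ^ 2 := by
    rw [sq_abs]
    have : 0 < (a - b) ^ 2 := by positivity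
    nlinarith
  exact lt_of_pow_lt_pow_left₀ 2 (abs_nonneg _) h4

theorem exists_eigen {M : Matrix (Fin 2) (Fin 2) ℝ} (hM : M.det = 1) (ht : 2 ≤ |M.trace|) :
    ∃ x a : ℝ, M *ᵥ hv x = a • hv x := by
  set t := M.trace with htd
  have h4 : 0 ≤ t ^ 2 - 4 := by
    have : (2:ℝ) ^ 2 ≤ |t| ^ 2 := pow_le_pow_left₀ (by norm_num) ht 2
    rw [sq_abs] at this
    linarith
  set a := (t + √(t ^ 2 - 4)) / 2 with ha
  have hroot : a ^ 2 - t * a + 1 = 0 := by
    have := Real.sq_sqrt h4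
    rw [ha]
    nlinarith
  have hdet : (M - a • (1 : Matrix (Fin 2) (Fin 2) ℝ)).det = 0 := by
    rw [Matrix.det_fin_two] at hM ⊢
    rw [Matrix.trace_fin_two] at htd
    simp only [Matrix.sub_apply, Matrix.smul_apply, Matrix.one_apply_eq, smul_eq_mul, mul_one,
      Matrix.one_apply_ne (show (0 : Fin 2) ≠ 1 by decide),
      Matrix.one_apply_ne (show (1 : Fin 2) ≠ 0 by decide), mul_zero, sub_zero]
    rw [htd] at hroot
    linarith
  obtain ⟨v, hv0, hv1⟩ := Matrix.exists_mulVec_eq_zero_iff.2 hdet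
  rw [Matrix.sub_mulVec, Matrix.smul_mulVec, Matrix.one_mulVec, sub_eq_zero] at hv1
  have hne : pt (v 0) (v 1) ≠ 0 := by
    intro h0
    apply hv0
    ext i
    fin_cases i
    · exact congrFun (congrArg WithLp.ofLp h0) 0
    · exact congrFun (congrArg WithLp.ofLp h0) 1
  obtain ⟨φ, hφ⟩ := exists_pos_ev _ hne
  have hn : 0 < ‖pt (v 0) (v 1)‖ := norm_pos_iff.2 hne
  set n := ‖pt (v 0) (v 1)‖ with hn'
  have e0 : v 0 = n * Real.cos φ := congrFun (congrArg WithLp.ofLp hφ) 0
  have e1 : v 1 = n * Real.sin φ := congrFun (congrArg WithLp.ofLp hφ) 1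
  have hvx : v = n • hv (2 * φ) := by
    ext i
    fin_cases i
    · show v 0 = n * Real.cos (2 * φ / 2)
      rw [e0]; congr 2; ring
    · show v 1 = n * Real.sin (2 * φ / 2)
      rw [e1]; congr 2; ring
  refine ⟨2 * φ, a, ?_⟩
  rw [hvx, Matrix.mulVec_smul, smul_comm] at hv1
  exact smul_right_injective _ hn.ne' hv1

theorem hv_parallel {x y : ℝ} (h : Real.sin ((y - x) / 2) = 0) :
    hv y = Real.cos ((y - x) / 2) • hv x := by
  have e : y / 2 = x / 2 + (y - x) / 2 := by ring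
  ext i
  fin_cases i
  · show Real.cos (y / 2) = Real.cos ((y - x) / 2) * Real.cos (x / 2)
    rw [e, Real.cos_add, h]
    ring
  · show Real.sin (y / 2) = Real.cos ((y - x) / 2) * Real.sin (x / 2)
    rw [e, Real.sin_add, h]
    ring

/-! ### sub-solutions -/

variable {Γ : ℝ → E2} {L ℓ : ℝ} {α κ θ : ℝ → ℝ}

theorem above {η η' : ℝ → ℝ} (hη : ∀ t, HasDerivAt η (η' t) t)
    (hlt : ∀ t, η' t < Real.sin (η t) / ℓ - κ t) (h : Sol ℓ α κ θ) {T : ℝ} (hT : 0 < T)
    (h0 : η 0 ≤ θ 0 - α 0) : η T < θ T - α T := by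
  set u : ℝ → ℝ := fun t => η t - (θ t - α t - 0) with hu
  have hud : ∀ t, HasDerivAt u (η' t - (Real.sin (θ t - α t) / ℓ - κ t)) t := fun t =>
    (hη t).sub (h.dψ 0 t)
  have hb : ∀ t, 0 < u t → η' t - (Real.sin (θ t - α t) / ℓ - κ t) ≤ ℓ⁻¹ * u t := by
    intro t ht
    have h1 := hlt t
    have h2 := Real.abs_sin_sub_sin_le (η t) (θ t - α t)
    have h3 : η t - (θ t - α t) = u t := by simp only [hu]; ring
    rw [h3, abs_of_pos ht] at h2
    have h4 := (le_abs_self _).trans h2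
    have h5 := mul_le_mul_of_nonneg_left h4 (inv_nonneg.2 h.pos.le)
    have h6 : Real.sin (η t) / ℓ - Real.sin (θ t - α t) / ℓ =
        ℓ⁻¹ * (Real.sin (η t) - Real.sin (θ t - α t)) := by
      rw [div_eq_inv_mul, div_eq_inv_mul]; ring
    linarith
  have hle : ∀ t, 0 ≤ t → u t ≤ 0 := fun t ht =>
    barrier hud hb ht (by simp only [hu]; linarith)
  rcases lt_or_eq_of_le (hle T hT.le) with h1 | h1
  · simp only [hu] at h1
    linarith
  exfalso
  have hneg : η' T - (Real.sin (θ T - α T) / ℓ - κ T) < 0 := by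
    have h2 : η T = θ T - α T := by simp only [hu] at h1; linarith
    have h3 := hlt T
    rw [h2] at h3
    linarith
  have hs := hasDerivAt_iff_tendsto_slope.1 (hud T)
  have hev := hs.eventually (Iio_mem_nhds hneg)
  have hev2 : ∀ᶠ t in 𝓝[<] T, slope u T t < 0 :=
    hev.filter_mono (nhdsWithin_mono _ (fun t ht => ne_of_lt ht))
  have hev3 : ∀ᶠ t in 𝓝[<] T, t ∈ Ioo 0 T := Ioo_mem_nhdsLT hT
  obtain ⟨t, ht1, ht2⟩ := (hev2.and hev3).exists
  rw [slope_def_field, h1, sub_zero, div_neg_iff] at ht1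
  rcases ht1 with ⟨k1, k2⟩ | ⟨k1, k2⟩
  · have := hle t ht2.1.le
    linarith
  · linarith [ht2.2]

/-- strict form of the barrier at multiples of `π` -/
theorem Sol.fwd_strict (h : Sol ℓ α κ θ) (hmono : StrictMono α) (k : ℤ) {t0 t1 : ℝ} (h01 : t0 < t1)
    (h0 : θ t0 - α t0 ≤ k * Real.pi) : θ t1 - α t1 < k * Real.pi := by
  rcases lt_or_eq_of_le (h.fwd k h01.le h0) with h1 | h1
  · exact h1
  exfalso
  have hc : ∀ t ∈ Icc t0 t1, θ t - α t - 0 = θ t0 - α t0 - 0 := by
    intro t ht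
    have a1 := h.fwd k ht.1 h0
    have a2 := h.bwd k ht.2 h1.ge
    have a3 := h.bwd k h01.le h1.ge
    linarith
  have hc2 : ∀ t ∈ Ioo t0 t1, κ t = 0 := by
    intro t ht
    have h2 := const_deriv (h.dψ 0) hc ht
    have a1 := h.fwd k ht.1.le h0
    have a2 := h.bwd k ht.2.le h1.ge
    have h3 : θ t - α t = k * Real.pi := le_antisymm a1 a2
    rw [h3, Real.sin_int_mul_pi, zero_div] at h2
    linarith
  have hanti : AntitoneOn α (Icc t0 t1) := by
    apply antitoneOn_of_deriv_nonpos (convex_Icc _ _) h.contα.continuousOn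
      (fun t _ => (h.dα t).differentiableAt.differentiableWithinAt)
    intro t ht
    rw [interior_Icc] at ht
    rw [(h.dα t).deriv, hc2 t ht]
  have h5 := hanti (left_mem_Icc.2 h01.le) (right_mem_Icc.2 h01.le) h01.le
  exact absurd (hmono h01) (not_lt.2 h5)

end Q188.Bike
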