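import Pool.Agent.Q188.Bike.Barrier

/-!
# The rotation number of closed rear tracks
-/

set_option autoImplicit false
open MeasureTheory Metric Set Filter Topology

namespace Q188.Bike

open Pool.Agent.Y508

variable {ℓ : ℝ} {α κ θ : ℝ → ℝ} {L : ℝ}

theorem Sol.contθ (h : Sol ℓ α κ θ) : Continuous θ :=
  continuous_iff_continuousAt.2 fun t => (h.dθ t).continuousAt

theorem Sol.contα (h : Sol ℓ α κ θ) : Continuous α :=
  continuous_iff_continuousAt.2 fun t => (h.dα t).continuousAt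

theorem Sol.contψ (h : Sol ℓ α κ θ) : Continuous fun t => θ t - α t := h.contθ.sub h.contα

/-- descending intermediate values -/
theorem Sol.ivt (h : Sol ℓ α κ θ) {a b c : ℝ} (hab : a ≤ b) (h1 : c ≤ θ a - α a)
    (h2 : θ b - α b ≤ c) : ∃ s, a ≤ s ∧ s ≤ b ∧ θ s - α s = c := by
  obtain ⟨s, hs, he⟩ := intermediate_value_Icc' hab h.contψ.continuousOn ⟨h2, h1⟩
  exact ⟨s, hs.1, hs.2, he⟩

theorem Sol.closed (h : Sol ℓ α κ θ) (hturn : ∀ t, α (t + L) = α t + 2 * Real.pi) {ρ : ℤ}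
    (hρ : θ L = θ 0 + ρ * (2 * Real.pi)) (t : ℝ) : θ (t + L) = θ t + ρ * (2 * Real.pi) := by
  have key := ode_unique (d := fun t => θ (t + L) - θ t - ρ * (2 * Real.pi))
    (d' := fun t => Real.sin (θ (t + L) - α (t + L)) / ℓ - Real.sin (θ t - α t) / ℓ)
    (C := ℓ⁻¹) (inv_nonneg.2 h.pos.le) (fun t =>
      (((h.dθ (t + L)).comp_add_const t L).sub (h.dθ t)).sub_const _) (by
      intro t
      set d := θ (t + L) - θ t - ρ * (2 * Real.pi) with hd
      have e : Real.sin (θ (t + L) - α (t + L)) = Real.sin (θ t - α t + d) := by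
        rw [hturn, show θ (t + L) - (α t + 2 * Real.pi) = (θ t - α t + d) +
          ((ρ - 1 : ℤ) : ℝ) * (2 * Real.pi) by rw [hd]; push_cast; ring,
          Real.sin_add_int_mul_two_pi]
      rw [e, ← sub_div, abs_div, abs_of_pos h.pos, div_eq_inv_mul]
      apply mul_le_mul_of_nonneg_left _ (inv_nonneg.2 h.pos.le)
      have := Real.abs_sin_sub_sin_le (θ t - α t + d) (θ t - α t)
      rwa [add_sub_cancel_left] at this) (t0 := 0) (by simp only [zero_add, hρ]; ring) t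
  linarith

/-- at most one turn forward -/
theorem Sol.le_one (h : Sol ℓ α κ θ) (hL : 0 < L) (hturn : ∀ t, α (t + L) = α t + 2 * Real.pi)
    {ρ : ℤ} (hρ : θ L = θ 0 + ρ * (2 * Real.pi)) : ρ ≤ 1 := by
  have hpi := Real.pi_pos
  set k : ℤ := ⌈(θ 0 - α 0) / Real.pi⌉ with hk
  have h1 : θ 0 - α 0 ≤ k * Real.pi := by
    rw [← div_le_iff₀ hpi]
    exact Int.le_ceil _
  have h2 : (k : ℝ) * Real.pi < θ 0 - α 0 + Real.pi := by
    have h3 : (k : ℝ) < (θ 0 - α 0) / Real.pi + 1 := Int.ceil_lt_add_one _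
    calc (k : ℝ) * Real.pi < ((θ 0 - α 0) / Real.pi + 1) * Real.pi := by gcongr
      _ = θ 0 - α 0 + Real.pi := by field_simp
  have h3 := h.fwd k hL.le h1
  have h4 := hturn 0
  rw [zero_add] at h4
  rw [h4, hρ] at h3
  by_contra hcon
  push Not at hcon
  have hc : (2:ℝ) ≤ ρ := by exact_mod_cast hcon
  nlinarith

/-- at most one turn backward relative to the tangent, started at a zero of `ψ` -/
theorem Sol.core_two (h : Sol ℓ α κ θ) (hL : 0 < L) (hmono : StrictMono α)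
    (hturn : ∀ t, α (t + L) = α t + 2 * Real.pi) {s0 : ℝ} (h0 : θ s0 - α s0 = 0)
    (h1 : θ (s0 + L) - α (s0 + L) ≤ -(4 * Real.pi)) : False := by
  have hpi := Real.pi_pos
  obtain ⟨s4, a4, b4, e4⟩ := h.ivt (c := -(4 * Real.pi)) (by linarith : s0 ≤ s0 + L)
    (by linarith) h1
  obtain ⟨s3, a3, b3, e3⟩ := h.ivt (c := -(3 * Real.pi)) a4 (by linarith) (by linarith)
  obtain ⟨s2, a2, b2, e2⟩ := h.ivt (c := -(2 * Real.pi)) a3 (by linarith) (by linarith)
  obtain ⟨s1, a1, b1, e1⟩ := h.ivt (c := -Real.pi) a2 (by linarith) (by linarith)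
  have hm : ∀ a b : ℝ, a ≤ b → ∀ j : ℤ, θ a - α a ≤ ((2 * j + 1 : ℤ) : ℝ) * Real.pi →
      ((2 * j : ℤ) : ℝ) * Real.pi ≤ θ b - α b → θ a ≤ θ b := by
    intro a b hab j h2 h3
    have hmon : MonotoneOn θ (Icc a b) := by
      apply monotoneOn_of_deriv_nonneg (convex_Icc _ _) h.contθ.continuousOn
        (fun t _ => (h.dθ t).differentiableAt.differentiableWithinAt)
      intro t ht
      rw [interior_Icc] at ht
      rw [(h.dθ t).deriv]
      apply div_nonneg _ h.pos.le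
      have h4 := h.fwd _ ht.1.le h2
      have h5 := h.bwd _ ht.2.le h3
      rw [← Real.sin_sub_int_mul_two_pi (θ t - α t) j]
      push_cast at h4 h5
      apply Real.sin_nonneg_of_nonneg_of_le_pi <;> linarith
    exact hmon (left_mem_Icc.2 hab) (right_mem_Icc.2 hab) hab
  have k1 := hm s1 s2 b1 (-1) (by rw [e1]; push_cast; linarith) (by rw [e2]; push_cast; linarith)
  have k2 := hm s3 s4 b3 (-2) (by rw [e3]; push_cast; linarith) (by rw [e4]; push_cast; linarith)
  have hlt : s0 < s1 := by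
    rcases lt_or_eq_of_le a1 with hh | hh
    · exact hh
    · rw [← hh] at e1; linarith
  have m0 := hmono hlt
  have m1 := hmono.monotone b2
  have m2 := hmono.monotone b4
  have := hturn s0
  linarith

theorem Sol.ge_zero (h : Sol ℓ α κ θ) (hL : 0 < L) (hmono : StrictMono α)
    (hturn : ∀ t, α (t + L) = α t + 2 * Real.pi)
    {ρ : ℤ} (hρ : θ L = θ 0 + ρ * (2 * Real.pi)) : 0 ≤ ρ := by
  have hpi := Real.pi_pos
  by_contra hcon
  push Not at hcon
  have hc : (ρ : ℝ) ≤ -1 := by exact_mod_cast (by omega : ρ ≤ -1)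
  have hcl := h.closed hturn hρ
  set j : ℤ := ⌊(θ 0 - α 0) / (2 * Real.pi)⌋ with hj
  have h1 : (j : ℝ) * (2 * Real.pi) ≤ θ 0 - α 0 := by
    rw [← le_div_iff₀ (by positivity)]
    exact Int.floor_le _
  have h2 : θ 0 - α 0 < (j : ℝ) * (2 * Real.pi) + 2 * Real.pi := by
    have h3 : (θ 0 - α 0) / (2 * Real.pi) < j + 1 := Int.lt_floor_add_one _
    rw [div_lt_iff₀ (by positivity)] at h3
    linarith
  have h3 := hcl 0
  have h4 := hturn 0
  rw [zero_add] at h3 h4
  obtain ⟨s0, -, -, e0⟩ := h.ivt (c := (j : ℝ) * (2 * Real.pi)) hL.le h1 (by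
    rw [h3, h4]
    nlinarith)
  have hs := h.shift j
  apply hs.core_two hL hmono hturn (s0 := s0)
  · linarith
  · rw [hcl s0, hturn s0]
    nlinarith

end Q188.Bike
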