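import Pool.Agent.Q188.Bike.Rot

/-!
# Rotation number zero is impossible
-/

set_option autoImplicit false
open MeasureTheory Metric Set Filter Topology

namespace Q188.Bike

open Pool.Agent.Y508

variable {ℓ : ℝ} {α κ θ : ℝ → ℝ} {L : ℝ}

/-- primitive of `1 / sin` -/
noncomputable def Phi (x : ℝ) : ℝ := Real.log (Real.sin (x / 2)) - Real.log (Real.cos (x / 2))

theorem Phi_deriv {x : ℝ} (h0 : 0 < x) (h1 : x < Real.pi) :
    HasDerivAt Phi (1 / Real.sin x) x := by
  have hs : 0 < Real.sin (x / 2) := Real.sin_pos_of_pos_of_lt_pi (by linarith) (by linarith)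
  have hc : 0 < Real.cos (x / 2) := Real.cos_pos_of_mem_Ioo ⟨by linarith, by linarith⟩
  have hhalf : HasDerivAt (fun y : ℝ => y / 2) (1 / 2) x := (hasDerivAt_id x).div_const 2
  have h2 : HasDerivAt (fun y => Real.log (Real.sin (y / 2)))
      (Real.cos (x / 2) * (1 / 2) / Real.sin (x / 2)) x := hhalf.sin.log hs.ne'
  have h3 : HasDerivAt (fun y => Real.log (Real.cos (y / 2)))
      (-Real.sin (x / 2) * (1 / 2) / Real.cos (x / 2)) x := hhalf.cos.log hc.ne'
  have h4 := h2.sub h3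
  have e : 1 / Real.sin x = Real.cos (x / 2) * (1 / 2) / Real.sin (x / 2) -
      -Real.sin (x / 2) * (1 / 2) / Real.cos (x / 2) := by
    have e1 : Real.sin x = 2 * Real.sin (x / 2) * Real.cos (x / 2) := by
      rw [← Real.sin_two_mul]
      congr 1
      ring
    rw [e1]
    have := Real.sin_sq_add_cos_sq (x / 2)
    field_simp
    linarith
  rw [e]
  exact h4

theorem sin_ident (α θ a b : ℝ) : Real.sin (α - b) * Real.sin (θ - a) -
    Real.sin (b - a) * Real.sin (α - θ) = Real.sin (α - a) * Real.sin (θ - b) := by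
  simp only [Real.sin_sub]
  have h1 := Real.sin_sq_add_cos_sq α
  ring_nf

theorem Sol.core_one (h : Sol ℓ α κ θ) (hmono : StrictMono α)
    (hθ : ∀ t, θ (t + L) = θ t) {Y : ℝ → ℝ} {t1 t2 : ℝ}
    (hY : ∀ t, HasDerivAt Y (Real.sin (α t - θ t1)) t) (hYp : Y (t1 + L) = Y t1)
    (hturn : ∀ t, α (t + L) = α t + 2 * Real.pi)
    (h12 : t1 < t2) (h2L : t2 < t1 + L) (hα2 : α t2 = α t1 + Real.pi) (hθ2 : θ t2 = θ t1)
    (hψ0 : 0 ≤ θ t1 - α t1) (hψ1 : θ t1 - α t1 < Real.pi) : False := by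
  have hpi := Real.pi_pos
  have hthird : θ (t1 + L) = θ t1 := hθ t1
  have hαL := hturn t1
  -- turning points
  obtain ⟨s0, a0, b0, e0⟩ := h.ivt (c := 0) h12.le hψ0 (by rw [hα2, hθ2]; linarith)
  obtain ⟨s1, a1, b1, e1⟩ := h.ivt (c := -Real.pi) h2L.le (by rw [hα2, hθ2]; linarith)
    (by rw [hthird, hαL]; linarith)
  have inc : ∀ a b : ℝ, a ≤ b → ∀ j : ℤ, θ a - α a ≤ ((2 * j + 1 : ℤ) : ℝ) * Real.pi →
      ((2 * j : ℤ) : ℝ) * Real.pi ≤ θ b - α b → MonotoneOn θ (Icc a b) := by
    intro a b hab j h2 h3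
    apply monotoneOn_of_deriv_nonneg (convex_Icc _ _) h.contθ.continuousOn
      (fun t _ => (h.dθ t).differentiableAt.differentiableWithinAt)
    intro t ht
    rw [interior_Icc] at ht
    rw [(h.dθ t).deriv]
    apply div_nonneg _ h.pos.le
    have h4 := h.fwd _ ht.1.le h2
    have h5 := h.bwd _ ht.2.le h3
    rw [← Real.sin_sub_int_mul_two_pi (θ t - α t) j]
    push_cast at h4 h5
    apply Real.sin_nonneg_of_nonneg_of_le_pi <;> linarith
  have dec : ∀ a b : ℝ, a ≤ b → ∀ j : ℤ, θ a - α a ≤ ((2 * j : ℤ) : ℝ) * Real.pi →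
      ((2 * j - 1 : ℤ) : ℝ) * Real.pi ≤ θ b - α b → AntitoneOn θ (Icc a b) := by
    intro a b hab j h2 h3
    apply antitoneOn_of_deriv_nonpos (convex_Icc _ _) h.contθ.continuousOn
      (fun t _ => (h.dθ t).differentiableAt.differentiableWithinAt)
    intro t ht
    rw [interior_Icc] at ht
    rw [(h.dθ t).deriv]
    apply div_nonpos_of_nonpos_of_nonneg _ h.pos.le
    have h4 := h.fwd _ ht.1.le h2
    have h5 := h.bwd _ ht.2.le h3
    rw [← Real.sin_sub_int_mul_two_pi (θ t - α t) j]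
    push_cast at h4 h5
    apply Real.sin_nonpos_of_nonpos_of_neg_pi_le <;> linarith
  have d1 := inc t1 s0 a0 0 (by push_cast; linarith) (by rw [e0]; push_cast; linarith)
  have d2 := dec s0 t2 b0 0 (by rw [e0]; push_cast; linarith)
    (by rw [hα2, hθ2]; push_cast; linarith)
  have d3 := dec t2 s1 a1 0 (by rw [hα2, hθ2]; push_cast; linarith)
    (by rw [e1]; push_cast; linarith)
  have d4 := inc s1 (t1 + L) b1 (-1) (by rw [e1]; push_cast; linarith)
    (by rw [hthird, hαL]; push_cast; linarith)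
  -- `ψ (t1) ≠ 0`
  have hψpos : 0 < θ t1 - α t1 := by
    rcases lt_or_eq_of_le hψ0 with hh | hh
    · exact hh
    exfalso
    have d5 := dec t1 t2 h12.le 0 (by rw [← hh]; push_cast; linarith)
      (by rw [hα2, hθ2]; push_cast; linarith)
    have hconst : ∀ t ∈ Icc t1 t2, θ t = θ t1 := by
      intro t ht
      apply le_antisymm
      · exact d5 (left_mem_Icc.2 h12.le) ht ht.1
      · rw [← hθ2]
        exact d5 ht (right_mem_Icc.2 h12.le) ht.2
    obtain ⟨s, as, bs, es⟩ := h.ivt (c := -(Real.pi / 2)) h12.le (by linarith)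
      (by rw [hα2, hθ2]; linarith)
    have hs1 : t1 < s := by
      rcases lt_or_eq_of_le as with hh' | hh'
      · exact hh'
      · rw [← hh'] at es; linarith
    have hs2 : s < t2 := by
      rcases lt_or_eq_of_le bs with hh' | hh'
      · exact hh'
      · rw [hh', hα2, hθ2] at es; linarith
    have h5 := const_deriv h.dθ hconst ⟨hs1, hs2⟩
    rw [es, Real.sin_neg, Real.sin_pi_div_two, div_eq_zero_iff] at h5
    rcases h5 with h5 | h5
    · norm_num at h5
    · exact h.pos.ne' h5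
  have hs0 : s0 < t2 := by
    rcases lt_or_eq_of_le b0 with hh | hh
    · exact hh
    · rw [hh, hα2, hθ2] at e0; linarith
  have hs1 : t2 < s1 := by
    rcases lt_or_eq_of_le a1 with hh | hh
    · exact hh
    · rw [← hh, hα2, hθ2] at e1; linarith
  have hup : θ s0 < α t1 + Real.pi := by
    have := hmono hs0
    rw [hα2] at this
    linarith
  have hlo : α t1 < θ s1 := by
    have := hmono hs1
    rw [hα2] at this
    linarith
  have r1 : ∀ t ∈ Icc t1 t2, θ t1 ≤ θ t ∧ θ t ≤ θ s0 := by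
    intro t ht
    rcases le_total t s0 with hc | hc
    · exact ⟨d1 (left_mem_Icc.2 a0) ⟨ht.1, hc⟩ ht.1, d1 ⟨ht.1, hc⟩ (right_mem_Icc.2 a0) hc⟩
    · refine ⟨?_, d2 (left_mem_Icc.2 b0) ⟨hc, ht.2⟩ hc⟩
      rw [← hθ2]
      exact d2 ⟨hc, ht.2⟩ (right_mem_Icc.2 b0) ht.2
  have r2 : ∀ t ∈ Icc t2 (t1 + L), θ s1 ≤ θ t ∧ θ t ≤ θ t1 := by
    intro t ht
    rcases le_total t s1 with hc | hc
    · refine ⟨d3 ⟨ht.1, hc⟩ (right_mem_Icc.2 a1) hc, ?_⟩
      rw [← hθ2]
      exact d3 (left_mem_Icc.2 a1) ⟨ht.1, hc⟩ ht.1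
    · refine ⟨d4 (left_mem_Icc.2 b1) ⟨hc, ht.2⟩ hc, ?_⟩
      rw [← hthird]
      exact d4 ⟨hc, ht.2⟩ (right_mem_Icc.2 b1) ht.2
  -- `θ` stays in `(a, a + π)`
  have hrange : ∀ t ∈ Icc t1 (t1 + L), α t1 < θ t ∧ θ t < α t1 + Real.pi := by
    intro t ht
    have h0s : θ t1 ≤ θ s0 := (r1 s0 ⟨a0, b0⟩).1
    have h1s : θ s1 ≤ θ t1 := (r2 s1 ⟨a1, b1⟩).2
    rcases le_total t t2 with hc | hc
    · have := r1 t ⟨ht.1, hc⟩
      constructor <;> linarith
    · have := r2 t ⟨hc, ht.2⟩
      constructor <;> linarith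
  -- the function `G`
  set c := ℓ * Real.sin (θ t1 - α t1) with hc
  set G : ℝ → ℝ := fun t => Y t + c * Phi (θ t - α t1) with hG
  have hGd : ∀ t ∈ Icc t1 (t1 + L), HasDerivAt G
      (Real.sin (α t - α t1) * Real.sin (θ t - θ t1) / Real.sin (θ t - α t1)) t := by
    intro t ht
    have hr := hrange t ht
    have hsin : 0 < Real.sin (θ t - α t1) :=
      Real.sin_pos_of_pos_of_lt_pi (by linarith [hr.1]) (by linarith [hr.2])
    have k1 : HasDerivAt (fun t => Phi (θ t - α t1))
        (1 / Real.sin (θ t - α t1) * (Real.sin (θ t - α t) / ℓ)) t :=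
      (Phi_deriv (by linarith [hr.1]) (by linarith [hr.2])).comp t ((h.dθ t).sub_const (α t1))
    have k2 := (hY t).add (k1.const_mul c)
    have e : Real.sin (α t - α t1) * Real.sin (θ t - θ t1) / Real.sin (θ t - α t1) =
        Real.sin (α t - θ t1) + c * (1 / Real.sin (θ t - α t1) * (Real.sin (θ t - α t) / ℓ)) := by
      rw [← sin_ident (α t) (θ t) (α t1) (θ t1), hc]
      have e2 : Real.sin (α t - θ t) = -Real.sin (θ t - α t) := by
        rw [← Real.sin_neg]
        congr 1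
        ring
      rw [e2]
      have := h.pos.ne'
      field_simp
      ring
    rw [e]
    exact k2
  have h1L : t1 ≤ t1 + L := by linarith
  have hGm : MonotoneOn G (Icc t1 (t1 + L)) := by
    apply monotoneOn_of_deriv_nonneg (convex_Icc _ _)
      (fun t ht => (hGd t ht).continuousAt.continuousWithinAt)
      (fun t ht => (hGd t (interior_subset ht)).differentiableAt.differentiableWithinAt)
    intro t ht
    have ht' := interior_subset ht
    rw [(hGd t ht').deriv]
    have hr := hrange t ht'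
    have hsin : 0 < Real.sin (θ t - α t1) :=
      Real.sin_pos_of_pos_of_lt_pi (by linarith [hr.1]) (by linarith [hr.2])
    apply div_nonneg _ hsin.le
    rcases le_total t t2 with hc' | hc'
    · have hr1 := r1 t ⟨ht'.1, hc'⟩
      have m1 := hmono.monotone ht'.1
      have m2 := hmono.monotone hc'
      apply mul_nonneg
      · apply Real.sin_nonneg_of_nonneg_of_le_pi <;> linarith
      · apply Real.sin_nonneg_of_nonneg_of_le_pi <;> linarith
    · have hr2 := r2 t ⟨hc', ht'.2⟩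
      have m1 := hmono.monotone ht'.2
      have m2 := hmono.monotone hc'
      apply mul_nonneg_of_nonpos_of_nonpos
      · rw [← Real.sin_sub_two_pi]
        apply Real.sin_nonpos_of_nonpos_of_neg_pi_le <;> linarith
      · apply Real.sin_nonpos_of_nonpos_of_neg_pi_le <;> linarith
  have hGe : G t1 = G (t1 + L) := by
    simp only [hG]
    rw [hYp, hthird]
  have hGc := mono_const hGm hGe
  -- the derivative vanishes
  have hzero : ∀ t ∈ Ioo t1 t2, θ t = θ t1 := by
    intro t ht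
    have ht' : t ∈ Ioo t1 (t1 + L) := ⟨ht.1, ht.2.trans h2L⟩
    have h1 : G =ᶠ[𝓝 t] fun _ => G t1 := by
      filter_upwards [Ioo_mem_nhds ht'.1 ht'.2] with s hs
      exact hGc s ⟨hs.1.le, hs.2.le⟩
    have h2 := (hGd t ⟨ht'.1.le, ht'.2.le⟩).unique
      ((hasDerivAt_const t (G t1)).congr_of_eventuallyEq h1)
    have hr := hrange t ⟨ht'.1.le, ht'.2.le⟩
    have hsin : 0 < Real.sin (θ t - α t1) :=
      Real.sin_pos_of_pos_of_lt_pi (by linarith [hr.1]) (by linarith [hr.2])
    have m1 := hmono ht.1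
    have m2 := hmono ht.2
    have hsin2 : 0 < Real.sin (α t - α t1) :=
      Real.sin_pos_of_pos_of_lt_pi (by linarith) (by linarith)
    rw [div_eq_zero_iff] at h2
    rcases h2 with h2 | h2
    · rcases mul_eq_zero.1 h2 with h3 | h3
      · exact absurd h3 hsin2.ne'
      · have hr1 := r1 t ⟨ht.1.le, ht.2.le⟩
        by_contra hne
        have : 0 < θ t - θ t1 := by
          rcases lt_or_eq_of_le hr1.1 with h4 | h4
          · linarith
          · exact absurd h4.symm hne
        have := Real.sin_pos_of_pos_of_lt_pi this (by linarith)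
        linarith
    · exact absurd h2 hsin.ne'
  have hc2 : ∀ t ∈ Icc t1 t2, θ t = θ t1 := by
    intro t ht
    rcases lt_or_eq_of_le ht.1 with k1 | k1
    · rcases lt_or_eq_of_le ht.2 with k2 | k2
      · exact hzero t ⟨k1, k2⟩
      · rw [k2, hθ2]
    · rw [← k1]
  -- contradiction
  have f1 : s0 ∈ Ioo t1 t2 := by
    refine ⟨?_, hs0⟩
    rcases lt_or_eq_of_le a0 with hh | hh
    · exact hh
    · rw [← hh] at e0; linarith
  set s := (s0 + t2) / 2 with hs
  have g1 : s ∈ Ioo t1 t2 := ⟨by linarith [f1.1], by linarith⟩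
  have g2 := const_deriv h.dθ hc2 g1
  have g3 : θ s = θ s0 := by rw [hc2 s ⟨g1.1.le, g1.2.le⟩, hc2 s0 ⟨a0, b0⟩]
  have g4 : α s0 < α s := hmono (by linarith)
  have g5 : α s < α t2 := hmono g1.2
  have g7 : α t1 ≤ α s0 := hmono.monotone a0
  have g6 : Real.sin (θ s - α s) < 0 := by
    apply Real.sin_neg_of_neg_of_neg_pi_lt
    · linarith
    · linarith
  rw [div_eq_zero_iff] at g2
  rcases g2 with g2 | g2
  · linarith
  · exact h.pos.ne' g2

/-- the rotation number is not zero -/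
theorem Sol.ne_zero (h : Sol ℓ α κ θ) (hL : 0 < L) (hmono : StrictMono α)
    (hturn : ∀ t, α (t + L) = α t + 2 * Real.pi)
    (hY : ∀ b : ℝ, ∃ Y : ℝ → ℝ, (∀ t, HasDerivAt Y (Real.sin (α t - b)) t) ∧
      ∀ t, Y (t + L) = Y t)
    {ρ : ℤ} (hρ : θ L = θ 0 + ρ * (2 * Real.pi)) : ρ ≠ 0 := by
  rintro rfl
  have hpi := Real.pi_pos
  have hθ : ∀ t, θ (t + L) = θ t := by
    intro t
    have := h.closed hturn hρ t
    simpa using this
  -- surjectivity of `α`
  have hsurj : Function.Surjective α := by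
    have hn : ∀ n : ℕ, ∀ t, α (t + n * L) = α t + n * (2 * Real.pi) := by
      intro n
      induction n with
      | zero => intro t; simp
      | succ n ih =>
        intro t
        have e : t + ((n + 1 : ℕ) : ℝ) * L = (t + n * L) + L := by push_cast; ring
        rw [e, hturn, ih]
        push_cast
        ring
    intro y
    obtain ⟨n, hn1⟩ := exists_nat_gt (|y - α 0| / (2 * Real.pi))
    rw [div_lt_iff₀ (by positivity)] at hn1
    have u1 := hn n 0
    have u2 := hn n (-(n * L))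
    rw [neg_add_cancel] at u2
    rw [zero_add] at u1
    have v1 := abs_lt.1 hn1
    have hr := mem_range_of_exists_le_of_exists_ge (c := y) h.contα
      ⟨-(n * L), by linarith [v1.1]⟩ ⟨n * L, by linarith [v1.2]⟩
    exact hr
  set e := hmono.orderIsoOfSurjective α hsurj with he
  have hea : ∀ x, e x = α x := fun x => rfl
  set β : ℝ → ℝ := fun t => e.symm (α t + Real.pi) with hβ
  have hβα : ∀ t, α (β t) = α t + Real.pi := by
    intro t
    rw [← hea (β t)]
    exact e.apply_symm_apply _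
  have hβc : Continuous β := e.symm.continuous.comp (h.contα.add continuous_const)
  have hβlt : ∀ t, t < β t := by
    intro t
    rw [← hmono.lt_iff_lt, hβα]
    linarith
  have hβL : ∀ t, β t < t + L := by
    intro t
    rw [← hmono.lt_iff_lt, hβα, hturn]
    linarith
  have hββ : ∀ t, β (β t) = t + L := by
    intro t
    apply hmono.injective
    rw [hβα, hβα, hturn]
    ring
  -- a zero of `g`
  set g : ℝ → ℝ := fun t => θ (β t) - θ t with hg
  have hgc : Continuous g := (h.contθ.comp hβc).sub h.contθ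
  have hgβ : ∀ t, g (β t) = -g t := by
    intro t
    simp only [hg]
    rw [hββ, hθ]
    ring
  obtain ⟨t1, ht1⟩ : ∃ t, g t = 0 := by
    rcases le_total (g 0) 0 with h0 | h0
    · exact mem_range_of_exists_le_of_exists_ge hgc ⟨0, h0⟩ ⟨β 0, by rw [hgβ]; linarith⟩
    · exact mem_range_of_exists_le_of_exists_ge hgc ⟨β 0, by rw [hgβ]; linarith⟩ ⟨0, h0⟩
  set j : ℤ := ⌊(θ t1 - α t1) / (2 * Real.pi)⌋ with hj
  have h1 : (j : ℝ) * (2 * Real.pi) ≤ θ t1 - α t1 := by
    rw [← le_div_iff₀ (by positivity)]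
    exact Int.floor_le _
  have h2 : θ t1 - α t1 < (j : ℝ) * (2 * Real.pi) + 2 * Real.pi := by
    have h3 : (θ t1 - α t1) / (2 * Real.pi) < j + 1 := Int.lt_floor_add_one _
    rw [div_lt_iff₀ (by positivity)] at h3
    linarith
  have hs := h.shift j
  have hθs : ∀ t, (fun t => θ t - j * (2 * Real.pi)) (t + L) =
      (fun t => θ t - j * (2 * Real.pi)) t := by
    intro t
    simp only [hθ]
  have hθβ : θ (β t1) = θ t1 := by
    have : θ (β t1) - θ t1 = 0 := ht1
    linarith
  rcases lt_or_ge (θ t1 - j * (2 * Real.pi) - α t1) Real.pi with hc | hc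
  · obtain ⟨Y, hY1, hY2⟩ := hY (θ t1 - j * (2 * Real.pi))
    exact hs.core_one hmono hθs (t1 := t1) (t2 := β t1) hY1 (hY2 _) hturn (hβlt _) (hβL _)
      (hβα _) (by simp only [hθβ]) (by linarith) (by linarith)
  · obtain ⟨Y, hY1, hY2⟩ := hY (θ (β t1) - j * (2 * Real.pi))
    have hαβ := hβα t1
    exact hs.core_one hmono hθs (t1 := β t1) (t2 := t1 + L) hY1 (hY2 _) hturn (hβL _)
      (by linarith [hβlt t1]) (by rw [hturn, hαβ]; ring) (by simp only [hθβ, hθ])
      (by rw [hθβ, hαβ]; linarith) (by rw [hθβ, hαβ]; linarith)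

/-- **the rotation number is one** -/
theorem Sol.eq_one (h : Sol ℓ α κ θ) (hL : 0 < L) (hmono : StrictMono α)
    (hturn : ∀ t, α (t + L) = α t + 2 * Real.pi)
    (hY : ∀ b : ℝ, ∃ Y : ℝ → ℝ, (∀ t, HasDerivAt Y (Real.sin (α t - b)) t) ∧
      ∀ t, Y (t + L) = Y t)
    {ρ : ℤ} (hρ : θ L = θ 0 + ρ * (2 * Real.pi)) : ρ = 1 := by
  have h1 := h.le_one hL hturn hρ
  have h2 := h.ge_zero hL hmono hturn hρ
  have h3 := h.ne_zero hL hmono hturn hY hρ
  omega

end Q188.Bike
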