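import Pool.Agent.Y508.Basic

/-!
# Strictly convex closed tracks
-/

set_option autoImplicit false
open MeasureTheory Metric Set Filter Topology

namespace Q188.Bike

open Pool.Agent.Y508

/-- cross product -/
noncomputable def crs (x y : E2) : ℝ := x 0 * y 1 - x 1 * y 0

/-- A simple strictly convex closed plane curve, of class `C^2`, unit speed, period `L`,
counterclockwise. -/
structure ConvexTrack (Γ : ℝ → E2) (L : ℝ) : Prop where
  pos : 0 < L
  smooth : ContDiff ℝ 2 Γ
  unit : ∀ t, ‖deriv Γ t‖ = 1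
  per : ∀ t, Γ (t + L) = Γ t
  simple : Set.InjOn Γ (Set.Ico 0 L)
  region : ∃ K : Set E2, IsCompact K ∧ StrictConvex ℝ K ∧ (interior K).Nonempty ∧
    Set.range Γ = frontier K
  ccw : 0 < ∫ t in (0:ℝ)..L, crs (Γ t) (deriv Γ t)

theorem comp_deriv {Γ : ℝ → E2} {v : E2} {t : ℝ} (h : HasDerivAt Γ v t) (i : Fin 2) :
    HasDerivAt (fun s => Γ s i) (v i) t :=
  (EuclideanSpace.proj (𝕜 := ℝ) i).hasFDerivAt.comp_hasDerivAt t h

variable {Γ : ℝ → E2} {L : ℝ}

theorem ConvexTrack.diff (h : ConvexTrack Γ L) (t : ℝ) : HasDerivAt Γ (deriv Γ t) t :=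
  ((h.smooth.differentiable (by norm_num)) t).hasDerivAt

theorem ConvexTrack.cont (h : ConvexTrack Γ L) : Continuous Γ := h.smooth.continuous

theorem ConvexTrack.smooth1 (h : ConvexTrack Γ L) : ContDiff ℝ 1 (deriv Γ) := by
  have := h.smooth
  rw [show (2 : WithTop ℕ∞) = 1 + 1 by norm_num] at this
  exact (contDiff_succ_iff_deriv.1 this).2.2

theorem ConvexTrack.cont1 (h : ConvexTrack Γ L) : Continuous (deriv Γ) := h.smooth1.continuous

theorem ConvexTrack.diff1 (h : ConvexTrack Γ L) (t : ℝ) :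
    HasDerivAt (deriv Γ) (deriv (deriv Γ) t) t :=
  ((h.smooth1.differentiable (by norm_num)) t).hasDerivAt

theorem ConvexTrack.cont2 (h : ConvexTrack Γ L) : Continuous (deriv (deriv Γ)) :=
  h.smooth1.continuous_deriv (by norm_num)

theorem cont_coord {f : ℝ → E2} (hf : Continuous f) (i : Fin 2) : Continuous fun t => f t i :=
  (EuclideanSpace.proj (𝕜 := ℝ) i).continuous.comp hf

theorem cont_crs {f g : ℝ → E2} (hf : Continuous f) (hg : Continuous g) :
    Continuous fun t => crs (f t) (g t) := by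
  unfold crs
  exact ((cont_coord hf 0).mul (cont_coord hg 1)).sub ((cont_coord hf 1).mul (cont_coord hg 0))

theorem crs_sub_right (x y z : E2) : crs x (y - z) = crs x y - crs x z := by
  simp only [crs, PiLp.sub_apply]
  ring

theorem unit_coord {x : E2} (h : ‖x‖ = 1) : x 0 ^ 2 + x 1 ^ 2 = 1 := by
  rw [← norm_sq_E2, h, one_pow]

/-- the rotated vector -/
noncomputable def rot (x : E2) : E2 := pt (-x 1) (x 0)

theorem decompose {x : E2} (h : ‖x‖ = 1) (v : E2) :
    v = (x 0 * v 0 + x 1 * v 1) • x + crs x v • rot x := by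
  have h1 := unit_coord h
  ext i
  fin_cases i
  · show v 0 = (x 0 * v 0 + x 1 * v 1) * x 0 + (x 0 * v 1 - x 1 * v 0) * (-x 1)
    linear_combination (-v 0) * h1
  · show v 1 = (x 0 * v 0 + x 1 * v 1) * x 1 + (x 0 * v 1 - x 1 * v 0) * x 0
    linear_combination (-v 1) * h1

/-- the region is on one side of each tangent -/
theorem one_side (h : ConvexTrack Γ L) {K : Set E2} (hcpt : IsCompact K) (hK : StrictConvex ℝ K)
    (hint : (interior K).Nonempty) (hfr : Set.range Γ = frontier K) (t : ℝ) :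
    ∃ c : ℝ, c ≠ 0 ∧ ∀ x ∈ K, x ≠ Γ t → 0 < c * crs (deriv Γ t) (x - Γ t) := by
  have hmem : ∀ s, Γ s ∈ K := fun s => hcpt.isClosed.frontier_subset (hfr ▸ mem_range_self s)
  have hnot : Γ t ∉ interior K := by
    have h1 : Γ t ∈ frontier K := hfr ▸ mem_range_self t
    exact h1.2
  obtain ⟨f, hf⟩ := geometric_hahn_banach_open_point (hK.convex.interior) isOpen_interior hnot
  have hstrict : ∀ x ∈ K, x ≠ Γ t → f x < f (Γ t) := by
    intro x hx hne
    have hmid : (1/2 : ℝ) • x + (1/2 : ℝ) • Γ t ∈ interior K :=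
      hK hx (hmem t) hne (by norm_num) (by norm_num) (by norm_num)
    have := hf _ hmid
    rw [map_add, map_smul, map_smul, smul_eq_mul, smul_eq_mul] at this
    linarith
  have hle : ∀ s, f (Γ s) ≤ f (Γ t) := by
    intro s
    by_cases hs : Γ s = Γ t
    · rw [hs]
    · exact (hstrict _ (hmem s) hs).le
  have hder : HasDerivAt (fun s => f (Γ s)) (f (deriv Γ t)) t :=
    f.hasFDerivAt.comp_hasDerivAt t (h.diff t)
  have hzero : f (deriv Γ t) = 0 := by
    have hmax : IsLocalMax (fun s => f (Γ s)) t := Filter.Eventually.of_forall hle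
    exact hmax.hasDerivAt_eq_zero hder
  have hform : ∀ v : E2, f v = crs (deriv Γ t) v * f (rot (deriv Γ t)) := by
    intro v
    conv_lhs => rw [decompose (h.unit t) v]
    rw [map_add, map_smul, map_smul, hzero, smul_eq_mul, smul_eq_mul, mul_zero, zero_add]
  refine ⟨-f (rot (deriv Γ t)), ?_, ?_⟩
  · obtain ⟨p, hp⟩ := hint
    have h1 := hf p hp
    intro h0
    have h2 := hform (p - Γ t)
    rw [neg_eq_zero] at h0
    rw [h0, mul_zero, map_sub] at h2
    linarith
  · intro x hx hne
    have h1 := hstrict x hx hne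
    have h2 := hform (x - Γ t)
    rw [map_sub] at h2
    linarith

theorem int_deriv_zero (h : ConvexTrack Γ L) (i : Fin 2) :
    ∫ t in (0:ℝ)..L, deriv Γ t i = 0 := by
  rw [intervalIntegral.integral_eq_sub_of_hasDerivAt (fun t _ => comp_deriv (h.diff t) i)
    ((cont_coord h.cont1 i).intervalIntegrable _ _)]
  have := h.per 0
  rw [zero_add] at this
  simp only [this, sub_self]

/-- the curve is strictly to the left of its tangents -/
theorem left (h : ConvexTrack Γ L) {t s : ℝ} (hne : Γ s ≠ Γ t) :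
    0 < crs (deriv Γ t) (Γ s - Γ t) := by
  obtain ⟨K, hcpt, hK, hint, hfr⟩ := h.region
  have hmem : ∀ s, Γ s ∈ K := fun s => hcpt.isClosed.frontier_subset (hfr ▸ mem_range_self s)
  obtain ⟨p, hp⟩ := hint
  have hpK := interior_subset hp
  have hpne : ∀ t, p ≠ Γ t := by
    intro t he
    have h1 : Γ t ∈ frontier K := hfr ▸ mem_range_self t
    exact h1.2 (he ▸ hp)
  have hD : ∀ t, crs (deriv Γ t) (p - Γ t) ≠ 0 := by
    intro t h0
    obtain ⟨c, -, hc⟩ := one_side h hcpt hK ⟨p, hp⟩ hfr t
    have := hc p hpK (hpne t)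
    rw [h0, mul_zero] at this
    exact lt_irrefl _ this
  have hDc : Continuous fun t => crs (deriv Γ t) (p - Γ t) :=
    cont_crs h.cont1 (continuous_const.sub h.cont)
  have hint0 : ∫ t in (0:ℝ)..L, crs (deriv Γ t) (p - Γ t) =
      ∫ t in (0:ℝ)..L, crs (Γ t) (deriv Γ t) := by
    have e : (fun t => crs (deriv Γ t) (p - Γ t)) = fun t => (deriv Γ t 0 * p 1 - deriv Γ t 1 * p 0)
        + crs (Γ t) (deriv Γ t) := by
      funext t
      rw [crs_sub_right]
      unfold crs
      ring
    rw [e, intervalIntegral.integral_add, intervalIntegral.integral_sub,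
      intervalIntegral.integral_mul_const, intervalIntegral.integral_mul_const,
      int_deriv_zero h, int_deriv_zero h]
    · ring
    · exact ((cont_coord h.cont1 0).mul continuous_const).intervalIntegrable _ _
    · exact ((cont_coord h.cont1 1).mul continuous_const).intervalIntegrable _ _
    · exact (((cont_coord h.cont1 0).mul continuous_const).sub
        ((cont_coord h.cont1 1).mul continuous_const)).intervalIntegrable _ _
    · exact (cont_crs h.cont h.cont1).intervalIntegrable _ _
  have hpos : ∀ t, 0 < crs (deriv Γ t) (p - Γ t) := by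
    by_contra hcon
    push Not at hcon
    obtain ⟨t0, ht0⟩ := hcon
    have hneg : ∀ t, crs (deriv Γ t) (p - Γ t) < 0 := by
      intro t
      by_contra hc
      push Not at hc
      have hr : (0:ℝ) ∈ range fun t => crs (deriv Γ t) (p - Γ t) :=
        mem_range_of_exists_le_of_exists_ge hDc ⟨t0, ht0⟩ ⟨t, hc⟩
      obtain ⟨z, hz⟩ := hr
      exact hD z hz
    have h1 : ∫ t in (0:ℝ)..L, crs (deriv Γ t) (p - Γ t) ≤ 0 := by
      have h2 : 0 ≤ ∫ t in (0:ℝ)..L, -crs (deriv Γ t) (p - Γ t) :=
        intervalIntegral.integral_nonneg h.pos.le (fun t _ => by linarith [hneg t])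
      rw [intervalIntegral.integral_neg] at h2
      linarith
    rw [hint0] at h1
    exact absurd h.ccw (not_lt.2 h1)
  obtain ⟨c, -, hc⟩ := one_side h hcpt hK ⟨p, hp⟩ hfr t
  have h1 := hc p hpK (hpne t)
  have hcpos : 0 < c := by
    by_contra hcn
    push Not at hcn
    have := mul_nonpos_of_nonpos_of_nonneg hcn (hpos t).le
    linarith
  exact (mul_pos_iff_of_pos_left hcpos).1 (hc _ (hmem s) hne)

theorem per_int (h : ConvexTrack Γ L) (t : ℝ) (k : ℤ) : Γ (t + k * L) = Γ t := by
  have hp : Function.Periodic Γ L := h.per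
  exact hp.int_mul k t

theorem inj (h : ConvexTrack Γ L) {s t : ℝ} (h1 : t < s) (h2 : s < t + L) : Γ s ≠ Γ t := by
  intro he
  obtain ⟨k, hk, -⟩ := existsUnique_add_zsmul_mem_Ico h.pos t 0
  rw [zero_add, zsmul_eq_mul] at hk
  have e1 : Γ (t + k * L) = Γ t := per_int h t k
  rcases lt_or_ge (s + k * L) L with hc | hc
  · have e2 : Γ (s + k * L) = Γ s := per_int h s k
    have := h.simple (x₁ := s + k * L) (x₂ := t + k * L) ⟨by linarith [hk.1], hc⟩ hk
      (by rw [e1, e2, he])
    linarith
  · have e2 : Γ (s + k * L - L) = Γ s := by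
      rw [← h.per (s + k * L - L), sub_add_cancel]
      exact per_int h s k
    have := h.simple (x₁ := s + k * L - L) (x₂ := t + k * L) ⟨by linarith, by linarith [hk.2]⟩ hk
      (by rw [e1, e2, he])
    linarith

end Q188.Bike
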