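import Pool.Agent.Q188.Bike.Mono

/-!
# The transition from hyperbolic to elliptic monodromy
-/

set_option autoImplicit false
open MeasureTheory Metric Set Filter Topology
open scoped NNReal Matrix

namespace Q188.Bike

open Pool.Agent.Y508

variable {Γ : ℝ → E2} {L ℓ : ℝ} {α κ θ : ℝ → ℝ}

/-- A bicycle of length `ℓ` with front track `Γ` and rear track `Γ - ℓ (cos θ, sin θ)`. -/
def RidesA (Γ : ℝ → E2) (ℓ : ℝ) (θ : ℝ → ℝ) : Prop :=
  ∀ t, HasDerivAt θ ((deriv Γ t 0 * -Real.sin (θ t) + deriv Γ t 1 * Real.cos (θ t)) / ℓ) t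

/-- `M ∈ SL(2, ℝ)` is a lift of the monodromy `e^{iθ(0)} ↦ e^{iθ(L)}`: the point `e^{iθ}` of the
circle corresponds to the line through `(cos (θ/2), sin (θ/2))`. -/
def Lifts (Γ : ℝ → E2) (L ℓ : ℝ) (M : Matrix.SpecialLinearGroup (Fin 2) ℝ) : Prop :=
  ∀ θ, RidesA Γ ℓ θ → ∃ c : ℝ, c ≠ 0 ∧
    (M : Matrix (Fin 2) (Fin 2) ℝ) *ᵥ ![Real.cos (θ 0 / 2), Real.sin (θ 0 / 2)] =
      c • ![Real.cos (θ L / 2), Real.sin (θ L / 2)]

/-- hyperbolic monodromy: lifts exist, and all of them have `|tr M| > 2` -/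
def Hyperbolic (Γ : ℝ → E2) (L ℓ : ℝ) : Prop :=
  (∃ M, Lifts Γ L ℓ M) ∧ ∀ M : Matrix.SpecialLinearGroup (Fin 2) ℝ, Lifts Γ L ℓ M →
    2 < |(M : Matrix (Fin 2) (Fin 2) ℝ).trace|

/-- elliptic monodromy: lifts exist, and all of them have `|tr M| < 2` -/
def Elliptic (Γ : ℝ → E2) (L ℓ : ℝ) : Prop :=
  (∃ M, Lifts Γ L ℓ M) ∧ ∀ M : Matrix.SpecialLinearGroup (Fin 2) ℝ, Lifts Γ L ℓ M →
    |(M : Matrix (Fin 2) (Fin 2) ℝ).trace| < 2

theorem ridesA_iff (hA : Ang Γ L α κ) : RidesA Γ ℓ θ ↔ SolA ℓ α θ := by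
  have e : ∀ t, (deriv Γ t 0 * -Real.sin (θ t) + deriv Γ t 1 * Real.cos (θ t)) =
      Real.sin (α t - θ t) := by
    intro t
    rw [hA.tan t, ev_zero, ev_one, Real.sin_sub]
    ring
  unfold RidesA SolA
  simp only [e]

theorem SolA.sol (hA : Ang Γ L α κ) (hℓ : 0 < ℓ) (h : SolA ℓ α θ) :
    Sol ℓ α κ (fun t => θ t + Real.pi) := by
  refine ⟨hℓ, hA.der, hA.nonneg, fun t => ?_⟩
  have e : Real.sin (θ t + Real.pi - α t) = Real.sin (α t - θ t) := by
    rw [show θ t + Real.pi - α t = Real.pi - (α t - θ t) by ring, Real.sin_pi_sub]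
  rw [e]
  exact (h t).add_const _

theorem exists_lifts (hA : Ang Γ L α κ) (hL : 0 < L) (hℓ : 0 < ℓ) : ∃ M, Lifts Γ L ℓ M := by
  obtain ⟨M, hM, hM2⟩ := exists_lift_matrix hA hL hℓ
  refine ⟨⟨M, hM⟩, fun θ hθ => ⟨rad ℓ α θ L, (rad_pos L).ne', ?_⟩⟩
  exact hM2 θ ((ridesA_iff hA).1 hθ)

/-- closed solutions -/
def Closed (ℓ L : ℝ) (α : ℝ → ℝ) : Prop := ∃ θ, SolA ℓ α θ ∧ Real.sin ((θ L - θ 0) / 2) = 0

theorem elliptic_of_not_closed (hA : Ang Γ L α κ) (hL : 0 < L) (hℓ : 0 < ℓ)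
    (hn : ¬ Closed ℓ L α) : Elliptic Γ L ℓ := by
  refine ⟨exists_lifts hA hL hℓ, fun M hM => ?_⟩
  by_contra hcon
  push Not at hcon
  obtain ⟨x, a, hx⟩ := exists_eigen M.2 hcon
  obtain ⟨θ, hθ, h0⟩ := exists_solA hA hL hℓ x
  obtain ⟨c, hc, he⟩ := hM θ ((ridesA_iff hA).2 hθ)
  apply hn
  refine ⟨θ, hθ, ?_⟩
  have h1 : a • hv (θ 0) = c • hv (θ L) := by
    rw [← h0] at hx
    exact hx.symm.trans he
  have h2 : dv (hv (θ 0)) (c • hv (θ L)) = 0 := by
    rw [← h1]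
    simp only [dv, Pi.smul_apply, smul_eq_mul]
    ring
  have h3 : dv (hv (θ 0)) (c • hv (θ L)) = c * dv (hv (θ 0)) (hv (θ L)) := by
    simp only [dv, Pi.smul_apply, smul_eq_mul]
    ring
  rw [h3, dv_hv] at h2
  exact (mul_eq_zero.1 h2).resolve_left hc

/-- a strict periodic sub-solution in the strip `(0, π)` gives hyperbolic monodromy -/
theorem hyperbolic_of_sub (hA : Ang Γ L α κ) (hL : 0 < L) (hℓ : 0 < ℓ) {η η' : ℝ → ℝ}
    (hη : ∀ t, HasDerivAt η (η' t) t) (hlt : ∀ t, η' t < Real.sin (η t) / ℓ - κ t)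
    (hηL : η L = η 0) (h0 : 0 < η 0) (h1 : η 0 < Real.pi) :
    Hyperbolic Γ L ℓ ∧ Closed ℓ L α := by
  have hpi := Real.pi_pos
  obtain ⟨M, hM, hM2⟩ := exists_lift_matrix hA hL hℓ
  have hturn0 := hA.turn 0
  rw [zero_add] at hturn0
  -- sign of the displacement
  set D : ℝ → ℝ := fun x => dv (hv x) (M *ᵥ hv x) with hD
  have hDc : Continuous D := by
    have e : D = fun x => Real.cos (x / 2) * (M 1 0 * Real.cos (x / 2) + M 1 1 * Real.sin (x / 2)) -
        Real.sin (x / 2) * (M 0 0 * Real.cos (x / 2) + M 0 1 * Real.sin (x / 2)) := by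
      funext x
      simp only [hD, dv]
      rw [mv0, mv1]
      simp only [hv, Matrix.cons_val_zero, Matrix.cons_val_one]
    rw [e]
    fun_prop
  have hDval : ∀ θ, SolA ℓ α θ → D (θ 0) = rad ℓ α θ L * Real.sin ((θ L - θ 0) / 2) := by
    intro θ hθ
    simp only [hD]
    rw [hM2 θ hθ, ← dv_hv]
    simp only [dv, Pi.smul_apply, smul_eq_mul]
    ring
  -- three starting points
  obtain ⟨θ₀, hθ₀, i0⟩ := exists_solA hA hL hℓ (α 0 - Real.pi)
  obtain ⟨θ₁, hθ₁, i1⟩ := exists_solA hA hL hℓ (η 0 + α 0 - Real.pi)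
  obtain ⟨θ₂, hθ₂, i2⟩ := exists_solA hA hL hℓ (α 0)
  have s0 := hθ₀.sol hA hℓ
  have s1 := hθ₁.sol hA hℓ
  have s2 := hθ₂.sol hA hℓ
  -- first
  have a0 := s0.fwd_strict hA.mono 0 hL (by simp only [i0]; push_cast; linarith)
  have b0 := above (η := fun t => η t - 2 * Real.pi) (fun t => (hη t).sub_const _) (by
    intro t
    rw [Real.sin_sub_two_pi]
    exact hlt t) s0 hL (by simp only [i0]; linarith)
  -- second
  have a1 := s1.fwd 1 hL.le (by simp only [i1]; push_cast; linarith)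
  have b1 := above hη hlt s1 hL (by simp only [i1]; linarith)
  -- third
  have a2 := s2.fwd_strict hA.mono 1 hL (by simp only [i2]; push_cast; linarith)
  have b2 := above hη hlt s2 hL (by simp only [i2]; linarith)
  push_cast at a0 a1 a2
  rw [hηL] at b0 b1 b2
  have p0 : 0 < D (α 0 - Real.pi) := by
    rw [← i0, hDval θ₀ hθ₀]
    apply mul_pos (rad_pos _)
    apply Real.sin_pos_of_pos_of_lt_pi <;> rw [i0] <;> linarith
  have p1 : D (η 0 + α 0 - Real.pi) < 0 := by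
    rw [← i1, hDval θ₁ hθ₁]
    apply mul_neg_of_pos_of_neg (rad_pos _)
    rw [← neg_pos, ← Real.sin_sub_pi]
    apply Real.sin_pos_of_pos_of_lt_pi <;> rw [i1] <;> linarith
  have p2 : 0 < D (α 0) := by
    rw [← i2, hDval θ₂ hθ₂]
    apply mul_pos (rad_pos _)
    apply Real.sin_pos_of_pos_of_lt_pi <;> rw [i2] <;> linarith
  -- two zeros
  obtain ⟨xa, hxa, za⟩ := intermediate_value_Icc' (by linarith : α 0 - Real.pi ≤
    η 0 + α 0 - Real.pi) hDc.continuousOn ⟨p1.le, p0.le⟩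
  obtain ⟨xb, hxb, zb⟩ := intermediate_value_Icc (by linarith : η 0 + α 0 - Real.pi ≤ α 0)
    hDc.continuousOn ⟨p1.le, p2.le⟩
  have xa0 : α 0 - Real.pi < xa := by
    rcases lt_or_eq_of_le hxa.1 with h | h
    · exact h
    · rw [← h] at za; linarith
  have xa1 : xa < η 0 + α 0 - Real.pi := by
    rcases lt_or_eq_of_le hxa.2 with h | h
    · exact h
    · rw [h] at za; linarith
  have xb1 : η 0 + α 0 - Real.pi < xb := by
    rcases lt_or_eq_of_le hxb.1 with h | h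
    · exact h
    · rw [← h] at zb; linarith
  obtain ⟨θa, hθa, ja⟩ := exists_solA hA hL hℓ xa
  obtain ⟨θb, hθb, jb⟩ := exists_solA hA hL hℓ xb
  have ca : Real.sin ((θa L - θa 0) / 2) = 0 := by
    rw [← ja, hDval θa hθa] at za
    exact (mul_eq_zero.1 za).resolve_left (rad_pos _).ne'
  have cb : Real.sin ((θb L - θb 0) / 2) = 0 := by
    rw [← jb, hDval θb hθb] at zb
    exact (mul_eq_zero.1 zb).resolve_left (rad_pos _).ne'
  refine ⟨⟨exists_lifts hA hL hℓ, fun N hN => ?_⟩, ⟨θa, hθa, ca⟩⟩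
  obtain ⟨c1, -, e1⟩ := hN θa ((ridesA_iff hA).2 hθa)
  obtain ⟨c2, -, e2⟩ := hN θb ((ridesA_iff hA).2 hθb)
  obtain ⟨c3, hc3, e3⟩ := hN θ₂ ((ridesA_iff hA).2 hθ₂)
  change (N : Matrix (Fin 2) (Fin 2) ℝ) *ᵥ hv (θa 0) = c1 • hv (θa L) at e1
  change (N : Matrix (Fin 2) (Fin 2) ℝ) *ᵥ hv (θb 0) = c2 • hv (θb L) at e2
  change (N : Matrix (Fin 2) (Fin 2) ℝ) *ᵥ hv (θ₂ 0) = c3 • hv (θ₂ L) at e3
  rw [hv_parallel ca, smul_smul] at e1
  rw [hv_parallel cb, smul_smul] at e2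
  apply trace_gt N.2 e1 e2 (z := hv (θ₂ 0))
  · rw [dv_hv, ja, jb]
    apply ne_of_gt
    apply Real.sin_pos_of_pos_of_lt_pi <;> linarith [hxb.2]
  · rw [e3]
    have : dv (hv (θ₂ 0)) (c3 • hv (θ₂ L)) = c3 * dv (hv (θ₂ 0)) (hv (θ₂ L)) := by
      simp only [dv, Pi.smul_apply, smul_eq_mul]
      ring
    rw [this, dv_hv]
    apply mul_ne_zero hc3
    intro hz
    rw [← i2, hDval θ₂ hθ₂, hz, mul_zero] at p2
    exact lt_irrefl _ p2

/-- a closed solution relative to the tangent stays in a strip -/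
theorem strip (h : Sol ℓ α κ θ) (hL : 0 < L) (hmono : StrictMono α)
    (hψ : ∀ t, θ (t + L) - α (t + L) = θ t - α t) :
    ∃ j : ℤ, ∀ t, 0 < θ t - α t - j * (2 * Real.pi) ∧
      θ t - α t - j * (2 * Real.pi) < Real.pi := by
  have hpi := Real.pi_pos
  -- a time where `sin ψ > 0`
  obtain ⟨t0, ht0⟩ : ∃ t, 0 < Real.sin (θ t - α t) := by
    by_contra hcon
    push Not at hcon
    have hanti : Antitone fun t => θ t - α t - 0 := by
      apply antitone_of_deriv_nonpos (fun t => (h.dψ 0 t).differentiableAt)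
      intro t
      rw [(h.dψ 0 t).deriv]
      have := div_nonpos_of_nonpos_of_nonneg (hcon t) h.pos.le
      linarith [h.κnn t]
    have hc : ∀ t ∈ Icc 0 L, θ t - α t - 0 = θ 0 - α 0 - 0 := by
      intro t ht
      have h1 := hanti ht.1
      have h2 := hanti ht.2
      have h3 := hψ 0
      rw [zero_add] at h3
      simp only at h1 h2
      linarith
    have hα : AntitoneOn α (Icc 0 L) := by
      apply antitoneOn_of_deriv_nonpos (convex_Icc _ _) h.contα.continuousOn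
        (fun t _ => (h.dα t).differentiableAt.differentiableWithinAt)
      intro t ht
      rw [interior_Icc] at ht
      rw [(h.dα t).deriv]
      have h4 := const_deriv (h.dψ 0) hc ht
      have := div_nonpos_of_nonpos_of_nonneg (hcon t) h.pos.le
      linarith
    exact absurd (hmono hL) (not_lt.2 (hα (left_mem_Icc.2 hL.le) (right_mem_Icc.2 hL.le) hL.le))
  set j : ℤ := ⌊(θ t0 - α t0) / (2 * Real.pi)⌋ with hj
  have h1 : (j : ℝ) * (2 * Real.pi) ≤ θ t0 - α t0 := by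
    rw [← le_div_iff₀ (by positivity)]
    exact Int.floor_le _
  have h2 : θ t0 - α t0 < (j : ℝ) * (2 * Real.pi) + 2 * Real.pi := by
    have h3 : (θ t0 - α t0) / (2 * Real.pi) < j + 1 := Int.lt_floor_add_one _
    rw [div_lt_iff₀ (by positivity)] at h3
    linarith
  have h3 : θ t0 - α t0 - j * (2 * Real.pi) < Real.pi := by
    by_contra hc
    push Not at hc
    rw [← Real.sin_sub_int_mul_two_pi (θ t0 - α t0) j] at ht0
    have h4 : 0 ≤ Real.sin (θ t0 - α t0 - j * (2 * Real.pi) - Real.pi) :=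
      Real.sin_nonneg_of_nonneg_of_le_pi (by linarith) (by linarith)
    rw [Real.sin_sub_pi] at h4
    linarith
  have hn : ∀ n : ℕ, ∀ t, θ (t + n * L) - α (t + n * L) = θ t - α t := by
    intro n
    induction n with
    | zero => intro t; simp
    | succ n ih =>
      intro t
      have e : t + ((n + 1 : ℕ) : ℝ) * L = (t + n * L) + L := by push_cast; ring
      rw [e, hψ, ih]
  refine ⟨j, fun t => ?_⟩
  obtain ⟨n, hn1⟩ := exists_nat_gt (|t - t0| / L)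
  rw [div_lt_iff₀ hL] at hn1
  have v1 := abs_lt.1 hn1
  constructor
  · -- strict lower bound
    by_contra hc
    push Not at hc
    have k1 := h.fwd_strict hmono (2 * j) (t0 := t) (t1 := t0 + n * L) (by linarith [v1.2])
      (by push_cast; linarith)
    rw [hn n t0] at k1
    push_cast at k1
    linarith
  · by_contra hc
    push Not at hc
    have k1 := h.fwd_strict hmono (2 * j + 1) (t0 := t0) (t1 := t + n * L) (by linarith [v1.1])
      (by push_cast; linarith)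
    rw [hn n t] at k1
    push_cast at k1
    linarith

theorem closed_rho (hA : Ang Γ L α κ) (hΓ : ConvexTrack Γ L) (hℓ : 0 < ℓ)
    (h : SolA ℓ α θ) (hc : Real.sin ((θ L - θ 0) / 2) = 0) :
    (∀ t, θ (t + L) = θ t + 2 * Real.pi) := by
  obtain ⟨ρ, hρ⟩ := Real.sin_eq_zero_iff.1 hc
  have hs := h.sol hA hℓ
  have e1 : (fun t => θ t + Real.pi) L = (fun t => θ t + Real.pi) 0 + ρ * (2 * Real.pi) := by
    simp only
    linarith
  have h1 := hs.eq_one hΓ.pos hA.mono hA.turn (exists_Y hΓ hA) e1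
  intro t
  have h2 := hs.closed hA.turn e1 t
  rw [h1] at h2
  push_cast at h2
  linarith

theorem hyperbolic_of_closed (hA : Ang Γ L α κ) (hΓ : ConvexTrack Γ L) {ℓ₁ ℓ₂ : ℝ}
    (h2 : 0 < ℓ₂) (h12 : ℓ₂ < ℓ₁) (hc : Closed ℓ₁ L α) : Hyperbolic Γ L ℓ₂ := by
  obtain ⟨θ, hθ, h0⟩ := hc
  have hℓ₁ : 0 < ℓ₁ := h2.trans h12
  have hρ := closed_rho hA hΓ hℓ₁ hθ h0
  have hs := hθ.sol hA hℓ₁
  obtain ⟨j, hj⟩ := strip hs hΓ.pos hA.mono (by
    intro t
    rw [hρ, hA.turn]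
    ring)
  have hη : ∀ t, HasDerivAt (fun t => θ t + Real.pi - α t - j * (2 * Real.pi))
      (Real.sin (θ t + Real.pi - α t) / ℓ₁ - κ t) t := hs.dψ (j * (2 * Real.pi))
  apply (hyperbolic_of_sub hA hΓ.pos h2 hη _ _ (hj 0).1 (hj 0).2).1
  · intro t
    rw [Real.sin_sub_int_mul_two_pi]
    have hpos : 0 < Real.sin (θ t + Real.pi - α t) := by
      rw [← Real.sin_sub_int_mul_two_pi _ j]
      exact Real.sin_pos_of_pos_of_lt_pi (hj t).1 (hj t).2
    have : Real.sin (θ t + Real.pi - α t) / ℓ₁ < Real.sin (θ t + Real.pi - α t) / ℓ₂ := by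
      gcongr
    linarith
  · have k1 := hρ 0
    have k2 := hA.turn 0
    rw [zero_add] at k1 k2
    rw [k1, k2]
    ring

theorem closed_le (hA : Ang Γ L α κ) (hΓ : ConvexTrack Γ L) (hℓ : 0 < ℓ) (hc : Closed ℓ L α) :
    ℓ ≤ L / (2 * Real.pi) := by
  obtain ⟨θ, hθ, h0⟩ := hc
  have hρ := closed_rho hA hΓ hℓ hθ h0
  have hanti : Antitone fun t => θ t - t / ℓ := by
    have hd : ∀ t, HasDerivAt (fun t => θ t - t / ℓ) (Real.sin (α t - θ t) / ℓ - 1 / ℓ) t :=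
      fun t => (hθ t).sub ((hasDerivAt_id t).div_const ℓ)
    apply antitone_of_deriv_nonpos (fun t => (hd t).differentiableAt)
    intro t
    rw [(hd t).deriv, ← sub_div]
    apply div_nonpos_of_nonpos_of_nonneg _ hℓ.le
    linarith [Real.sin_le_one (α t - θ t)]
  have h1 := hanti hΓ.pos.le
  have h2 := hρ 0
  rw [zero_add] at h2
  simp only at h1
  rw [h2, zero_div, sub_zero] at h1
  have h3 : 2 * Real.pi ≤ L / ℓ := by linarith
  rw [le_div_iff₀ hℓ] at h3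
  rw [le_div_iff₀ (by positivity)]
  linarith

/-- **The transition.** -/
theorem transition (hΓ : ConvexTrack Γ L) : ∃ ℓ₀ : ℝ, 0 < ℓ₀ ∧
    (∀ ℓ, 0 < ℓ → ℓ < ℓ₀ → Hyperbolic Γ L ℓ) ∧ ∀ ℓ, ℓ₀ < ℓ → Elliptic Γ L ℓ := by
  obtain ⟨α, κ, hA⟩ := exists_ang hΓ
  have hL := hΓ.pos
  have hpi := Real.pi_pos
  obtain ⟨B, hB0, hB⟩ := kappa_bound hA hL
  set S : Set ℝ := {ℓ | 0 < ℓ ∧ Closed ℓ L α} with hS
  have hsmall : ∀ ℓ, 0 < ℓ → ℓ < 1 / B → Closed ℓ L α := by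
    intro ℓ h0 h1
    have h2 : B < 1 / ℓ := by
      rw [lt_div_iff₀ h0]
      rw [lt_div_iff₀ hB0] at h1
      linarith
    exact (hyperbolic_of_sub hA hL h0 (η := fun _ => Real.pi / 2) (η' := fun _ => 0)
      (fun t => hasDerivAt_const t _) (by
        intro t
        rw [Real.sin_pi_div_two]
        have := (le_abs_self _).trans (hB t)
        linarith) rfl (by positivity) (by linarith)).2
  have hbdd : BddAbove S := ⟨L / (2 * Real.pi), fun ℓ hℓ => closed_le hA hΓ hℓ.1 hℓ.2⟩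
  have hmem : 1 / B / 2 ∈ S := ⟨by positivity, hsmall _ (by positivity) (by
    have : 0 < 1 / B := by positivity
    linarith)⟩
  have hpos : 0 < sSup S := lt_of_lt_of_le (by positivity) (le_csSup hbdd hmem)
  refine ⟨sSup S, hpos, ?_, ?_⟩
  · intro ℓ h0 h1
    obtain ⟨ℓ₁, hℓ₁, hlt⟩ := exists_lt_of_lt_csSup ⟨_, hmem⟩ h1
    exact hyperbolic_of_closed hA hΓ h0 hlt hℓ₁.2
  · intro ℓ h1
    have h0 : 0 < ℓ := hpos.trans h1
    apply elliptic_of_not_closed hA hL h0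
    intro hc
    exact absurd (le_csSup hbdd ⟨h0, hc⟩) (not_le.2 h1)

end Q188.Bike
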